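import Pool.Agent.U505.MG.Poly

set_option autoImplicit false

/-!
# Exponential sums over the matrices of given determinant
-/

namespace Pool.Agent.U505.MG

open Finset

variable {p : ℕ} [Fact p.Prime]

/-- Precomposition with an affine map. -/
lemma PolyC_comp {V V' : Type} [AddCommGroup V] [AddCommGroup V'] (m : ℕ) (φ : V → V')
    (A : V → V') (hφ : ∀ x h, φ (x + h) = φ x + A h) :
    ∀ f : V' → ZMod p, PolyC m f → PolyC m (fun x => f (φ x)) := by
  induction m with
  | zero => intro f hf x; exact hf _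
  | succ m ih =>
    intro f hf h
    have : Dl h (fun x => f (φ x)) = fun x => Dl (A h) f (φ x) := by
      funext x; simp only [Dl, hφ]
    rw [this]
    exact ih _ (hf _)

/-- Few zeros. -/
lemma zeros {V : Type} [AddCommGroup V] [Module (ZMod p) V] [Fintype V] (m : ℕ)
    (g : V → ZMod p) (hg : PolyC m g) (hn : ∃ x y, g x ≠ g y) :
    ((univ.filter fun x => g x = 0).card : ℝ) ≤ 3 * (Fintype.card V * sav p m) := by
  classical
  have hp : 0 < p := (Fact.out : p.Prime).pos
  have hp0 : (0 : ℝ) < p := by exact_mod_cast hp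
  have h1 : ((p : ℝ) : ℂ) * ((univ.filter fun x => g x = 0).card : ℂ) =
      ∑ t : ZMod p, W (fun x => t * g x) := by
    unfold W
    rw [sum_comm]
    have h2 : ∀ x : V, ∑ t : ZMod p, (ZMod.stdAddChar (t * g x) : ℂ) =
        if g x = 0 then (p : ℂ) else 0 := by
      intro x
      have := AddChar.sum_mulShift (R := ZMod p) (R' := ℂ) (g x)
        (ψ := ZMod.stdAddChar) (ZMod.isPrimitive_stdAddChar p)
      rw [this, ZMod.card]
      split_ifs <;> simp
    rw [sum_congr rfl fun x _ => h2 x, ← sum_filter, sum_const, nsmul_eq_mul]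
    push_cast
    ring
  have h3 : ((p : ℝ)) * ((univ.filter fun x => g x = 0).card : ℝ) ≤
      Fintype.card V + p * (2 * (Fintype.card V * sav p m)) := by
    have h4 : ‖((p : ℝ) : ℂ) * ((univ.filter fun x => g x = 0).card : ℂ)‖ =
        (p : ℝ) * ((univ.filter fun x => g x = 0).card : ℝ) := by
      rw [norm_mul, Complex.norm_real, Complex.norm_natCast, Real.norm_of_nonneg hp0.le]
    rw [← h4, h1]
    refine (norm_sum_le _ _).trans ?_
    have hs := sav_pos p m hp
    have h5 : ∀ t : ZMod p, ‖W (fun x => t * g x)‖ ≤ (if t = 0 then (Fintype.card V : ℝ) else 0) +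
        2 * (Fintype.card V * sav p m) := by
      intro t
      by_cases ht : t = 0
      · rw [if_pos ht]
        have := norm_W_le (fun x => t * g x)
        have h6 : 0 ≤ 2 * ((Fintype.card V : ℝ) * sav p m) := by positivity
        linarith
      · rw [if_neg ht, zero_add]
        apply weyl m _ (PolyC_smul m t g hg)
        obtain ⟨x, y, hxy⟩ := hn
        exact ⟨x, y, fun h => hxy (mul_left_cancel₀ ht h)⟩
    refine (sum_le_sum fun t _ => h5 t).trans ?_
    rw [sum_add_distrib, sum_ite_eq' univ (0 : ZMod p), if_pos (mem_univ _), sum_const, card_univ,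
      ZMod.card, nsmul_eq_mul]
  have h6 := inv_le_sav p m hp
  have h7 : (Fintype.card V : ℝ) ≤ p * (Fintype.card V * sav p m) := by
    calc (Fintype.card V : ℝ) = p * (Fintype.card V * (1 / p)) := by field_simp
      _ ≤ _ := by gcongr
  have h8 : (p : ℝ) * ((univ.filter fun x => g x = 0).card : ℝ) ≤
      p * (3 * (Fintype.card V * sav p m)) := by linarith
  exact le_of_mul_le_mul_left h8 hp0

/-! ## Affine dependence on a row -/

abbrev Mt (p n : ℕ) : Type := Matrix (Fin n) (Fin n) (ZMod p)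

/-- `P` is affine in the row `i₀`. -/
def RowAff {n : ℕ} (i₀ : Fin n) (P : Mt p n → ZMod p) : Prop :=
  ∀ (g : Mt p n) (r v : Fin n → ZMod p) (t : ZMod p),
    P (g.updateRow i₀ (r + t • v)) =
      P (g.updateRow i₀ r) + t * (P (g.updateRow i₀ v) - P (g.updateRow i₀ 0))

lemma RowAff_minor {n k : ℕ} (i₀ : Fin n) (a : Fin k ↪o Fin n) (b : Fin k ↪o Fin n) :
    RowAff (p := p) i₀ (fun g => minor a b g) := by
  intro g r v t
  by_cases h : ∃ s, a s = i₀
  · obtain ⟨s, rfl⟩ := h
    have key : ∀ x : Fin n → ZMod p, minor a b (g.updateRow (a s) x) =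
        ((g.submatrix a b).updateRow s (fun j => x (b j))).det := by
      intro x
      unfold minor
      congr 1
      ext i j
      simp only [Matrix.submatrix_apply, Matrix.updateRow_apply]
      by_cases his : i = s
      · simp [his]
      · have : a i ≠ a s := fun h => his (a.injective h)
        simp [his, this]
    show minor a b _ = minor a b _ + t * (minor a b _ - minor a b _)
    rw [key, key, key, key]
    have e1 : (fun j => (r + t • v) (b j)) = (fun j => r (b j)) + t • fun j => v (b j) := by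
      funext j; simp
    have e2 : (fun j => (0 : Fin n → ZMod p) (b j)) = (0 : ZMod p) • fun j => r (b j) := by
      funext j; simp
    rw [e1, e2, Matrix.det_updateRow_add, Matrix.det_updateRow_smul, Matrix.det_updateRow_smul]
    ring
  · push Not at h
    have key : ∀ x : Fin n → ZMod p, minor a b (g.updateRow i₀ x) = minor a b g := by
      intro x
      unfold minor
      congr 1
      ext i j
      simp only [Matrix.submatrix_apply, Matrix.updateRow_apply]
      rw [if_neg (h i)]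
    show minor a b _ = minor a b _ + t * (minor a b _ - minor a b _)
    rw [key, key, key, key]
    ring

lemma RowAff_sum {n : ℕ} (i₀ : Fin n) {ι : Type} (s : Finset ι) (H : ι → ZMod p)
    (P : ι → Mt p n → ZMod p) (hP : ∀ i ∈ s, RowAff i₀ (P i)) :
    RowAff i₀ (fun g => ∑ i ∈ s, H i * P i g) := by
  intro g r v t
  show ∑ i ∈ s, H i * P i _ = ∑ i ∈ s, H i * P i _ + t * (∑ i ∈ s, H i * P i _ -
    ∑ i ∈ s, H i * P i _)
  rw [← sum_sub_distrib, mul_sum, ← sum_add_distrib]
  refine sum_congr rfl fun i hi => ?_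
  rw [hP i hi g r v t]
  ring

/-- The coefficient of the entry `(i₀, j)`. -/
def co {n : ℕ} (i₀ : Fin n) (P : Mt p n → ZMod p) (j : Fin n) (g : Mt p n) : ZMod p :=
  P (g.updateRow i₀ (Pi.single j 1)) - P (g.updateRow i₀ 0)

/-- The direction in which the determinant does not change. -/
def dir {n : ℕ} (i₀ j₀ j₁ : Fin n) (g : Mt p n) : Fin n → ZMod p :=
  (g.updateRow i₀ (Pi.single j₁ 1)).det • (Pi.single j₀ 1 : Fin n → ZMod p) -
    (g.updateRow i₀ (Pi.single j₀ 1)).det • (Pi.single j₁ 1 : Fin n → ZMod p)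

/-- The obstruction. -/
def obs {n : ℕ} (i₀ j₀ j₁ : Fin n) (P : Mt p n → ZMod p) (g : Mt p n) : ZMod p :=
  co i₀ P j₀ g * (g.updateRow i₀ (Pi.single j₁ 1)).det -
    co i₀ P j₁ g * (g.updateRow i₀ (Pi.single j₀ 1)).det

lemma updateRow_twice {n : ℕ} (i₀ : Fin n) (g : Mt p n) (x y : Fin n → ZMod p) :
    (g.updateRow i₀ x).updateRow i₀ y = g.updateRow i₀ y := by
  ext i j
  simp only [Matrix.updateRow_apply]
  split_ifs <;> rfl

lemma updateRow_self {n : ℕ} (i₀ : Fin n) (g : Mt p n) : g.updateRow i₀ (g i₀) = g := by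
  ext i j
  simp only [Matrix.updateRow_apply]
  split_ifs with h
  · rw [h]
  · rfl

lemma RowAff_det {n : ℕ} (i₀ : Fin n) : RowAff (p := p) i₀ (fun g => g.det) := by
  intro g r v t
  show (g.updateRow i₀ _).det = (g.updateRow i₀ _).det + t * ((g.updateRow i₀ _).det -
    (g.updateRow i₀ _).det)
  have e2 : (g.updateRow i₀ 0).det = 0 := by
    apply Matrix.det_eq_zero_of_row_eq_zero i₀
    intro j
    simp
  rw [Matrix.det_updateRow_add, Matrix.det_updateRow_smul, e2]
  ring

lemma aff_dir {n : ℕ} (i₀ j₀ j₁ : Fin n) (P : Mt p n → ZMod p) (hP : RowAff i₀ P) (g : Mt p n) :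
    P (g.updateRow i₀ (dir i₀ j₀ j₁ g)) - P (g.updateRow i₀ 0) = obs i₀ j₀ j₁ P g := by
  have h1 : dir i₀ j₀ j₁ g = (0 + (g.updateRow i₀ (Pi.single j₁ 1)).det •
      (Pi.single j₀ 1 : Fin n → ZMod p)) + (-(g.updateRow i₀ (Pi.single j₀ 1)).det) •
      (Pi.single j₁ 1 : Fin n → ZMod p) := by
    unfold dir
    rw [zero_add, neg_smul, sub_eq_add_neg]
  rw [h1, hP, hP]
  unfold obs co
  ring

lemma obs_det {n : ℕ} (i₀ j₀ j₁ : Fin n) (g : Mt p n) :
    obs i₀ j₀ j₁ (fun g => g.det) g = 0 := by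
  have e2 : (g.updateRow i₀ 0).det = 0 := by
    apply Matrix.det_eq_zero_of_row_eq_zero i₀
    intro j
    simp
  unfold obs co
  simp only [e2]
  ring

/-- The translation. -/
def tr {n : ℕ} (i₀ j₀ j₁ : Fin n) (t : ZMod p) (g : Mt p n) : Mt p n :=
  g.updateRow i₀ (g i₀ + t • dir i₀ j₀ j₁ g)

lemma dir_upd {n : ℕ} (i₀ j₀ j₁ : Fin n) (g : Mt p n) (x : Fin n → ZMod p) :
    dir i₀ j₀ j₁ (g.updateRow i₀ x) = dir i₀ j₀ j₁ g := by
  unfold dir
  rw [updateRow_twice, updateRow_twice]

lemma obs_upd {n : ℕ} (i₀ j₀ j₁ : Fin n) (P : Mt p n → ZMod p) (g : Mt p n)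
    (x : Fin n → ZMod p) : obs i₀ j₀ j₁ P (g.updateRow i₀ x) = obs i₀ j₀ j₁ P g := by
  unfold obs co
  simp only [updateRow_twice]

lemma tr_tr {n : ℕ} (i₀ j₀ j₁ : Fin n) (t : ZMod p) (g : Mt p n) :
    tr i₀ j₀ j₁ (-t) (tr i₀ j₀ j₁ t g) = g := by
  unfold tr
  rw [dir_upd, updateRow_twice]
  have : (g.updateRow i₀ (g i₀ + t • dir i₀ j₀ j₁ g)) i₀ = g i₀ + t • dir i₀ j₀ j₁ g := by
    simp
  rw [this, neg_smul, add_neg_cancel_right, updateRow_self]

lemma P_tr {n : ℕ} (i₀ j₀ j₁ : Fin n) (P : Mt p n → ZMod p) (hP : RowAff i₀ P) (t : ZMod p)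
    (g : Mt p n) : P (tr i₀ j₀ j₁ t g) = P g + t * obs i₀ j₀ j₁ P g := by
  unfold tr
  rw [hP, aff_dir i₀ j₀ j₁ P hP, updateRow_self]

/-- The exponential sum over the matrices of determinant `a` is at most the number of matrices
with vanishing obstruction. -/
theorem sum_le_obs {n : ℕ} (i₀ j₀ j₁ : Fin n) (P : Mt p n → ZMod p) (hP : RowAff i₀ P)
    (a : ZMod p) :
    ‖∑ g ∈ univ.filter (fun g : Mt p n => g.det = a), (ZMod.stdAddChar (P g) : ℂ)‖ ≤
      ((univ.filter fun g : Mt p n => g.det = a ∧ obs i₀ j₀ j₁ P g = 0).card : ℝ) := by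
  classical
  have hp : 0 < p := (Fact.out : p.Prime).pos
  have hp0 : (p : ℂ) ≠ 0 := by exact_mod_cast hp.ne'
  set S := univ.filter (fun g : Mt p n => g.det = a) with hS
  have hdet : ∀ t g, (tr i₀ j₀ j₁ t g).det = (g : Mt p n).det := by
    intro t g
    have := P_tr i₀ j₀ j₁ (fun g => g.det) (RowAff_det i₀) t g
    rw [obs_det, mul_zero, add_zero] at this
    exact this
  have h1 : ∀ t : ZMod p, ∑ g ∈ S, (ZMod.stdAddChar (P g) : ℂ) =
      ∑ g ∈ S, (ZMod.stdAddChar (P (tr i₀ j₀ j₁ t g)) : ℂ) := by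
    intro t
    symm
    refine sum_nbij' (tr i₀ j₀ j₁ t) (tr i₀ j₀ j₁ (-t)) ?_ ?_ ?_ ?_ ?_
    · intro g hg
      rw [hS, mem_filter] at hg ⊢
      exact ⟨mem_univ _, by rw [hdet]; exact hg.2⟩
    · intro g hg
      rw [hS, mem_filter] at hg ⊢
      exact ⟨mem_univ _, by rw [hdet]; exact hg.2⟩
    · intro g _
      exact tr_tr _ _ _ _ _
    · intro g _
      have := tr_tr i₀ j₀ j₁ (-t) g
      rwa [neg_neg] at this
    · intro g _
      rfl
  have h2 : (p : ℂ) * ∑ g ∈ S, (ZMod.stdAddChar (P g) : ℂ) =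
      (p : ℂ) * ∑ g ∈ S.filter (fun g => obs i₀ j₀ j₁ P g = 0), (ZMod.stdAddChar (P g) : ℂ) := by
    have e1 : (p : ℂ) * ∑ g ∈ S, (ZMod.stdAddChar (P g) : ℂ) =
        ∑ t : ZMod p, ∑ g ∈ S, (ZMod.stdAddChar (P (tr i₀ j₀ j₁ t g)) : ℂ) := by
      rw [← sum_congr rfl fun t _ => h1 t, sum_const, card_univ, ZMod.card, nsmul_eq_mul]
    rw [e1]
    rw [sum_comm]
    have e0 : ∑ g ∈ S.filter (fun g => obs i₀ j₀ j₁ P g = 0), (ZMod.stdAddChar (P g) : ℂ) =
        ∑ g ∈ S, if obs i₀ j₀ j₁ P g = 0 then (ZMod.stdAddChar (P g) : ℂ) else 0 := sum_filter _ _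
    rw [e0, mul_sum]
    refine sum_congr rfl fun g _ => ?_
    have e2 : ∀ t : ZMod p, (ZMod.stdAddChar (P (tr i₀ j₀ j₁ t g)) : ℂ) =
        ZMod.stdAddChar (P g) * ZMod.stdAddChar (t * obs i₀ j₀ j₁ P g) := by
      intro t
      rw [P_tr _ _ _ P hP, AddChar.map_add_eq_mul]
    rw [sum_congr rfl fun t _ => e2 t, ← mul_sum]
    have e3 := AddChar.sum_mulShift (R := ZMod p) (R' := ℂ) (obs i₀ j₀ j₁ P g)
        (ψ := ZMod.stdAddChar) (ZMod.isPrimitive_stdAddChar p)
    rw [e3, ZMod.card]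
    split_ifs <;> simp [mul_comm]
  rw [mul_left_cancel₀ hp0 h2]
  refine (norm_sum_le _ _).trans ?_
  simp only [norm_stdAddChar, sum_const, nsmul_eq_mul, mul_one]
  rw [hS, filter_filter]

/-- The determinant values `≠ 0` are equally likely under conditions independent of a row. -/
theorem card_det {n : ℕ} (i₀ : Fin n) (D : Mt p n → Prop) [DecidablePred D]
    (hD : ∀ g x, D (g.updateRow i₀ x) ↔ D g) (a : ZMod p) (ha : a ≠ 0) :
    (p - 1) * (univ.filter fun g : Mt p n => g.det = a ∧ D g).card =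
      (univ.filter fun g : Mt p n => g.det ≠ 0 ∧ D g).card := by
  classical
  have h1 : (univ.filter fun g : Mt p n => g.det ≠ 0 ∧ D g).card =
      ∑ c ∈ (univ.erase (0 : ZMod p)),
        ((univ.filter fun g : Mt p n => g.det ≠ 0 ∧ D g).filter fun g => g.det = c).card := by
    apply card_eq_sum_card_fiberwise
    intro g hg
    simp only [coe_filter, mem_univ, true_and, Set.mem_setOf_eq] at hg
    simpa using hg.1
  rw [h1]
  have h2 : ∀ c ∈ (univ.erase (0 : ZMod p)),
      ((univ.filter fun g : Mt p n => g.det ≠ 0 ∧ D g).filter fun g => g.det = c).card =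
      (univ.filter fun g : Mt p n => g.det = a ∧ D g).card := by
    intro c hc
    have hc0 : c ≠ 0 := ne_of_mem_erase hc
    have hdet : ∀ (g : Mt p n) (t : ZMod p), (g.updateRow i₀ (t • g i₀)).det = t * g.det := by
      intro g t
      rw [Matrix.det_updateRow_smul, updateRow_self]
    refine card_nbij' (fun g => g.updateRow i₀ ((a / c) • g i₀))
      (fun g => g.updateRow i₀ ((c / a) • g i₀)) ?_ ?_ ?_ ?_
    · intro g hg
      simp only [coe_filter, mem_univ, true_and, Set.mem_setOf_eq, mem_filter] at hg ⊢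
      refine ⟨?_, (hD _ _).2 hg.1.2⟩
      rw [hdet, hg.2]
      field_simp
    · intro g hg
      simp only [coe_filter, mem_univ, true_and, Set.mem_setOf_eq, mem_filter] at hg ⊢
      have e : (g.updateRow i₀ ((c / a) • g i₀)).det = c := by
        rw [hdet, hg.1]
        field_simp
      refine ⟨⟨?_, (hD _ _).2 hg.2⟩, e⟩
      rw [e]; exact hc0
    · intro g _
      show (g.updateRow i₀ ((a / c) • g i₀)).updateRow i₀
        ((c / a) • (g.updateRow i₀ ((a / c) • g i₀)) i₀) = g
      rw [updateRow_twice]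
      have e : (g.updateRow i₀ ((a / c) • g i₀)) i₀ = (a / c) • g i₀ := by simp
      rw [e, smul_smul]
      have e' : c / a * (a / c) = 1 := by field_simp
      rw [e', one_smul, updateRow_self]
    · intro g _
      show (g.updateRow i₀ ((c / a) • g i₀)).updateRow i₀
        ((a / c) • (g.updateRow i₀ ((c / a) • g i₀)) i₀) = g
      rw [updateRow_twice]
      have e : (g.updateRow i₀ ((c / a) • g i₀)) i₀ = (c / a) • g i₀ := by simp
      rw [e, smul_smul]
      have e' : a / c * (c / a) = 1 := by field_simp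
      rw [e', one_smul, updateRow_self]
  rw [sum_congr rfl h2, sum_const, card_erase_of_mem (mem_univ _), card_univ, ZMod.card,
    smul_eq_mul]

end Pool.Agent.U505.MG
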