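import Pool.Agent.U505.MG.Det

set_option autoImplicit false

/-!
# The obstruction does not vanish identically
-/

namespace Pool.Agent.U505.MG

open Finset

variable {p : ℕ} [Fact p.Prime]

/-- The combination of the minors. -/
def PH {n : ℕ} [Fintype (Idx n n)] (H : Idx n n → ZMod p) (g : Mt p n) : ZMod p :=
  ∑ w : Idx n n, H w * minor w.2.1 w.2.2 g

lemma exists_min {n : ℕ} (H : Idx n n → ZMod p) (hH : H ≠ 0) :
    ∃ w₀ : Idx n n, H w₀ ≠ 0 ∧ ∀ w : Idx n n, (w.1 : ℕ) < w₀.1 → H w = 0 := by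
  classical
  have h1 : ∃ k : ℕ, ∃ w : Idx n n, (w.1 : ℕ) = k ∧ H w ≠ 0 := by
    by_contra hcon
    push Not at hcon
    exact hH (funext fun w => hcon _ w rfl)
  obtain ⟨w₀, hw₀, hne⟩ := Nat.find_spec h1
  refine ⟨w₀, hne, fun w hw => ?_⟩
  by_contra hcon
  have := Nat.find_min' h1 ⟨w, rfl, hcon⟩
  omega

lemma idx_cases {n : ℕ} (w₀ w : Idx n n) (h2 : (w₀.1 : ℕ) ≤ w.1)
    (hr : ∀ s, ∃ t, w₀.2.1 t = w.2.1 s) :
    (w₀.1 : ℕ) = w.1 ∧ ∃ s : Fin (w.1 + 1), w.2.1 s = w₀.2.1 0 := by
  obtain ⟨e, he⟩ := emb_eq (by omega) _ _ hr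
  refine ⟨by omega, 0, ?_⟩
  rw [← he 0]
  congr 1

lemma PH_pm {n : ℕ} [Fintype (Idx n n)] (H : Idx n n → ZMod p) (w₀ : Idx n n)
    (hmin : ∀ w : Idx n n, (w.1 : ℕ) < w₀.1 → H w = 0) :
    PH H (pm w₀.2.1 w₀.2.2) = H w₀ := by
  classical
  unfold PH
  rw [sum_eq_single w₀, minor_pm_self, mul_one]
  · intro w _ hw
    by_cases hHw : H w = 0
    · rw [hHw, zero_mul]
    have h2 : (w₀.1 : ℕ) ≤ w.1 := by
      by_contra hcon
      exact hHw (hmin w (by omega))
    have h3 : minor (p := p) w.2.1 w.2.2 (pm w₀.2.1 w₀.2.2) = 0 := by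
      by_cases hr : ∀ s, ∃ t, w₀.2.1 t = w.2.1 s
      · by_cases hc : ∀ s, ∃ t, w₀.2.2 t = w.2.2 s
        · exfalso
          apply hw
          obtain ⟨e, he⟩ := emb_eq (by omega) _ _ hr
          obtain ⟨e', he'⟩ := emb_eq (by omega) _ _ hc
          obtain ⟨k₀, a₀, b₀⟩ := w₀
          obtain ⟨k₁, a₁, b₁⟩ := w
          have hkk : k₀ = k₁ := by
            simp only at e
            ext; omega
          subst hkk
          simp only at he he'
          have ha : a₁ = a₀ := by
            ext s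
            rw [← he s]
            rfl
          have hb : b₁ = b₀ := by
            ext s
            rw [← he' s]
            rfl
          rw [ha, hb]
        · push Not at hc
          obtain ⟨s, hs⟩ := hc
          exact minor_pm_col _ _ _ _ s hs
      · push Not at hr
        obtain ⟨s, hs⟩ := hr
        exact minor_pm_row _ _ _ _ s hs
    rw [h3, mul_zero]
  · intro h
    exact absurd (mem_univ _) h

/-- A permutation extending the partial one. -/
lemma exists_perm {n k : ℕ} (a : Fin (k + 1) ↪o Fin n) (b : Fin (k + 1) ↪o Fin n) (j₁ : Fin n)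
    (hj₁ : ∀ s, b s ≠ j₁) : ∃ σ : Equiv.Perm (Fin n), σ (a 0) = j₁ ∧ ∀ s, s ≠ 0 → σ (a s) = b s := by
  classical
  set f : Fin n → Fin n := fun i => if h : ∃ s, a s = i then
    (if h.choose = 0 then j₁ else b h.choose) else j₁ with hf
  have hfa : ∀ s, f (a s) = if s = 0 then j₁ else b s := by
    intro s
    have h : ∃ s', a s' = a s := ⟨s, rfl⟩
    have h2 : h.choose = s := a.injective h.choose_spec
    simp only [hf]
    rw [dif_pos h, h2]
  obtain ⟨g, hg⟩ := Finset.exists_equiv_extend_of_card_eq (α := Fin n) (β := Fin n)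
    (t := univ) (by simp) (s := univ.image a) (f := f) (by intro x _; simp) (by
      intro x hx y hy hxy
      simp only [coe_image, coe_univ, Set.image_univ, Set.mem_range] at hx hy
      obtain ⟨s, rfl⟩ := hx
      obtain ⟨t, rfl⟩ := hy
      rw [hfa, hfa] at hxy
      by_cases hs : s = 0
      · by_cases ht : t = 0
        · rw [hs, ht]
        · rw [if_pos hs, if_neg ht] at hxy
          exact absurd hxy.symm (hj₁ t)
      · by_cases ht : t = 0
        · rw [if_neg hs, if_pos ht] at hxy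
          exact absurd hxy (hj₁ s)
        · rw [if_neg hs, if_neg ht] at hxy
          rw [b.injective hxy])
  refine ⟨g.trans (Equiv.subtypeUnivEquiv (fun x => mem_univ x)), ?_, ?_⟩
  · show ((g (a 0) : _) : Fin n) = j₁
    rw [hg _ (by simp), hfa, if_pos rfl]
  · intro s hs
    show ((g (a s) : _) : Fin n) = b s
    rw [hg _ (by simp), hfa, if_neg hs]

/-- The test matrices. -/
noncomputable def Qt {n k : ℕ} (a : Fin (k + 1) ↪o Fin n) (σ : Equiv.Perm (Fin n)) (t : ZMod p) :
    Mt p n :=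
  open Classical in
  fun i j => if i = a 0 then 0 else if σ i = j then (if ∃ s, a s = i then 1 else t) else 0

lemma PolyC_det (n : ℕ) : PolyC (2 * n + 1) (fun g : Mt p n => g.det) := by
  have := PolyC_minor (p := p) (m := n) (n := n) (k := n) id id
  simpa [minor] using this

lemma PolyC_upd {n m : ℕ} (i₀ : Fin n) (P : Mt p n → ZMod p) (hP : PolyC m P)
    (x : Fin n → ZMod p) : PolyC m (fun g : Mt p n => P (g.updateRow i₀ x)) := by
  refine PolyC_comp m (fun g : Mt p n => g.updateRow i₀ x) (fun h : Mt p n => h.updateRow i₀ 0)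
    ?_ P hP
  intro g h
  ext i j
  simp only [Matrix.updateRow_apply, Matrix.add_apply]
  split_ifs <;> simp

lemma PolyC_co {n m : ℕ} (i₀ : Fin n) (P : Mt p n → ZMod p) (hP : PolyC m P) (j : Fin n) :
    PolyC m (fun g => co i₀ P j g) := by
  have h1 := PolyC_add m _ _ (PolyC_upd i₀ P hP (Pi.single j 1))
    (PolyC_smul m (-1) _ (PolyC_upd i₀ P hP 0))
  have : (fun g => co i₀ P j g) = fun g : Mt p n => P (g.updateRow i₀ (Pi.single j 1)) +
      (-1) * P (g.updateRow i₀ 0) := by
    funext g; unfold co; ring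
  rw [this]; exact h1

lemma PolyC_obs {n m : ℕ} (i₀ j₀ j₁ : Fin n) (P : Mt p n → ZMod p) (hP : PolyC m P) :
    PolyC (m + (2 * n + 1)) (fun g => obs i₀ j₀ j₁ P g) := by
  have h1 := PolyC_add _ _ _
    (PolyC_mul (m + (2 * n + 1)) m (2 * n + 1) rfl _ _ (PolyC_co i₀ P hP j₀)
      (PolyC_upd i₀ _ (PolyC_det (p := p) n) (Pi.single j₁ 1)))
    (PolyC_smul _ (-1) _ (PolyC_mul (m + (2 * n + 1)) m (2 * n + 1) rfl _ _ (PolyC_co i₀ P hP j₁)
      (PolyC_upd i₀ _ (PolyC_det (p := p) n) (Pi.single j₀ 1))))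
  have : (fun g => obs i₀ j₀ j₁ P g) = fun g : Mt p n =>
      co i₀ P j₀ g * (g.updateRow i₀ (Pi.single j₁ 1)).det +
        (-1) * (co i₀ P j₁ g * (g.updateRow i₀ (Pi.single j₀ 1)).det) := by
    funext g; unfold obs; ring
  rw [this]; exact h1

lemma PolyC_PH {n : ℕ} [Fintype (Idx n n)] (H : Idx n n → ZMod p) : PolyC (2 * n + 1) (PH H) := by
  unfold PH
  refine PolyC_sum _ _ _ fun w _ => PolyC_smul _ _ _ ?_
  refine PolyC_le ?_ _ (PolyC_minor _ _)
  have := w.1.2
  omega

lemma RowAff_PH {n : ℕ} [Fintype (Idx n n)] (i₀ : Fin n) (H : Idx n n → ZMod p) :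
    RowAff i₀ (PH H) := by
  unfold PH
  exact RowAff_sum i₀ univ H _ fun w _ => RowAff_minor i₀ _ _

/-- The obstruction is a nonconstant function. -/
theorem obs_ne {n : ℕ} [Fintype (Idx n n)] (H : Idx n n → ZMod p) (hH : H ≠ 0)
    (hn : ∀ w : Idx n n, (w.1 : ℕ) + 1 = n → H w = 0) (hs : 6 * sav p (2 * n + 1) < 1) :
    ∃ i₀ j₀ j₁ : Fin n, ∃ x y : Mt p n, obs i₀ j₀ j₁ (PH H) x ≠ obs i₀ j₀ j₁ (PH H) y := by
  classical
  obtain ⟨w₀, hw₀, hmin⟩ := exists_min H hH
  obtain ⟨k, a, b⟩ := w₀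
  have hk1 : (k : ℕ) + 1 ≠ n := fun h => hw₀ (hn _ h)
  have hk2 : (k : ℕ) + 1 < n := by have := k.2; omega
  obtain ⟨j₁, hj₁⟩ : ∃ j₁, ∀ s, b s ≠ j₁ := by
    by_contra hcon
    push Not at hcon
    have h1 : Function.Surjective b := hcon
    have h2 := Fintype.card_le_of_surjective _ h1
    simp at h2
    omega
  obtain ⟨σ, hσ0, hσ⟩ := exists_perm a b j₁ hj₁
  set Q : ZMod p → Mt p n := fun t => Qt a σ t with hQ
  have hQrow : ∀ t x, (Q t).updateRow (a 0) x = fun i j => if i = a 0 then x j else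
      if σ i = j then (if ∃ s, a s = i then 1 else t) else 0 := by
    intro t x
    ext i j
    simp only [Matrix.updateRow_apply, hQ, Qt]
    split_ifs <;> rfl
  -- the determinant with `j₁`
  have hC1 : ∀ t : ZMod p, t ≠ 0 → ((Q t).updateRow (a 0) (Pi.single j₁ 1)).det ≠ 0 := by
    intro t ht
    have e : (Q t).updateRow (a 0) (Pi.single j₁ 1) =
        Matrix.diagonal (fun i => if ∃ s, a s = i then (1 : ZMod p) else t) *
          σ.permMatrix (ZMod p) := by
      rw [hQrow]
      ext i j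
      rw [Matrix.diagonal_mul, Equiv.Perm.permMatrix, PEquiv.toMatrix_apply]
      have e1 : (j ∈ σ.toPEquiv i) ↔ σ i = j := by
        simp [Equiv.toPEquiv, eq_comm]
      simp only [e1]
      by_cases hi : i = a 0
      · subst hi
        rw [if_pos rfl, if_pos ⟨0, rfl⟩, hσ0, one_mul, Pi.single_apply]
        by_cases hj : j = j₁
        · rw [if_pos hj, if_pos hj.symm]
        · rw [if_neg hj, if_neg (Ne.symm hj)]
      · rw [if_neg hi]
        split_ifs <;> simp
    rw [e, Matrix.det_mul, Matrix.det_diagonal, Matrix.det_permutation]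
    refine mul_ne_zero (prod_ne_zero_iff.2 fun i _ => ?_) ?_
    · split_ifs
      · exact one_ne_zero
      · exact ht
    · rcases Int.units_eq_one_or (Equiv.Perm.sign σ) with h | h <;> rw [h] <;> simp
  have hC0 : ∀ t : ZMod p, ((Q t).updateRow (a 0) (Pi.single (b 0) 1)).det = 0 := by
    intro t
    apply Matrix.det_eq_zero_of_column_eq_zero j₁
    intro i
    rw [hQrow]
    by_cases hi : i = a 0
    · simp only [if_pos hi]
      rw [Pi.single_apply, if_neg (Ne.symm (hj₁ 0))]
    · simp only [if_neg hi]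
      rw [if_neg]
      intro h
      rw [← hσ0] at h
      exact hi (σ.injective h)
  -- the function `φ`
  set φ : ZMod p → ZMod p := fun t => co (a 0) (PH H) (b 0) (Q t) with hφ
  have hφC : PolyC (V := ZMod p) (2 * n + 1) φ := by
    have key : ∀ x : Fin n → ZMod p,
        PolyC (V := ZMod p) (2 * n + 1) (fun t => PH H ((Q t).updateRow (a 0) x)) := by
      intro x
      refine PolyC_comp (2 * n + 1) (fun t : ZMod p => (Q t).updateRow (a 0) x)
        (fun h : ZMod p => (fun i j => if i = a 0 then 0 else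
          if σ i = j then (if ∃ s, a s = i then 0 else h) else 0 : Mt p n)) ?_ _ (PolyC_PH H)
      intro t h
      simp only [hQrow]
      funext i j
      show _ = (if i = a 0 then x j else if σ i = j then (if ∃ s, a s = i then (1 : ZMod p) else t)
        else 0) + (if i = a 0 then 0 else if σ i = j then (if ∃ s, a s = i then (0 : ZMod p) else h)
        else 0)
      split_ifs <;> simp
    have h1 := PolyC_add _ _ _ (key (Pi.single (b 0) 1)) (PolyC_smul _ (-1) _ (key 0))
    have : φ = fun t => PH H ((Q t).updateRow (a 0) (Pi.single (b 0) 1)) +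
        (-1) * PH H ((Q t).updateRow (a 0) 0) := by
      funext t
      simp only [hφ, co]
      ring
    rw [this]; exact h1
  have hφ0 : φ 0 = H ⟨k, a, b⟩ := by
    have e1 : (Q 0).updateRow (a 0) (Pi.single (b 0) 1) = pm a b := by
      rw [hQrow]
      ext i j
      simp only [pm]
      by_cases hi : i = a 0
      · rw [if_pos hi, Pi.single_apply]
        by_cases hj : j = b 0
        · rw [if_pos hj, if_pos ⟨0, hi.symm, hj.symm⟩]
        · rw [if_neg hj, if_neg]
          rintro ⟨t, h1, h2⟩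
          rw [hi] at h1
          rw [a.injective h1] at h2
          exact hj h2.symm
      · rw [if_neg hi]
        by_cases hs' : ∃ s, a s = i
        · obtain ⟨s, rfl⟩ := hs'
          have hs0 : s ≠ 0 := fun h => hi (by rw [h])
          rw [if_pos (⟨s, rfl⟩ : ∃ s', a s' = a s), hσ s hs0]
          by_cases hj : b s = j
          · rw [if_pos hj, if_pos ⟨s, rfl, hj⟩]
          · rw [if_neg hj, if_neg]
            rintro ⟨t, h1, h2⟩
            rw [a.injective h1] at h2
            exact hj h2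
        · have e3 : (if σ i = j then (0 : ZMod p) else 0) = 0 := by split_ifs <;> rfl
          rw [if_neg hs', e3, if_neg]
          rintro ⟨t, h1, _⟩
          exact hs' ⟨t, h1⟩
    have e2 : PH H ((Q 0).updateRow (a 0) 0) = 0 := by
      unfold PH
      refine sum_eq_zero fun w _ => ?_
      by_cases hHw : H w = 0
      · rw [hHw, zero_mul]
      have h2 : (k : ℕ) ≤ w.1 := by
        by_contra hcon
        exact hHw (hmin w (by simpa using hcon))
      have h3 : minor (p := p) w.2.1 w.2.2 ((Q 0).updateRow (a 0) 0) = 0 := by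
        unfold minor
        by_cases hr : ∀ s, ∃ t, a t = w.2.1 s
        · obtain ⟨_, s, hs⟩ := idx_cases ⟨k, a, b⟩ w h2 hr
          refine Matrix.det_eq_zero_of_row_eq_zero s fun j => ?_
          simp only [Matrix.submatrix_apply]
          rw [hs, hQrow]
          simp
        · push Not at hr
          obtain ⟨s, hs⟩ := hr
          refine Matrix.det_eq_zero_of_row_eq_zero s fun j => ?_
          simp only [Matrix.submatrix_apply]
          rw [hQrow]
          simp only
          rw [if_neg (fun h => hs 0 h.symm)]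
          split_ifs with h4 h5
          · obtain ⟨t, ht⟩ := h5
            exact absurd ht (hs t)
          · rfl
          · rfl
      rw [h3, mul_zero]
    simp only [hφ, co]
    rw [e1, e2, sub_zero]
    exact PH_pm H ⟨k, a, b⟩ hmin
  obtain ⟨t, ht0, ht⟩ : ∃ t : ZMod p, t ≠ 0 ∧ φ t ≠ 0 := by
    by_contra hcon
    push Not at hcon
    have hp2 : 2 ≤ p := (Fact.out : p.Prime).two_le
    have h1 := zeros (V := ZMod p) (2 * n + 1) φ hφC ⟨0, 1, by
      rw [hcon 1 one_ne_zero, hφ0]; exact hw₀⟩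
    have h2 : ((p : ℝ) - 1) ≤ ((univ.filter fun x => φ x = 0).card : ℝ) := by
      have h3 : (univ.erase (0 : ZMod p)) ⊆ univ.filter fun x => φ x = 0 := by
        intro x hx
        rw [mem_filter]
        exact ⟨mem_univ _, hcon x (ne_of_mem_erase hx)⟩
      have h4 := card_le_card h3
      rw [card_erase_of_mem (mem_univ _), card_univ, ZMod.card] at h4
      have h5 : ((p - 1 : ℕ) : ℝ) ≤ ((univ.filter fun x => φ x = 0).card : ℝ) := by
        exact_mod_cast h4
      rwa [Nat.cast_sub (by omega), Nat.cast_one] at h5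
    rw [ZMod.card] at h1
    have hp2' : (2 : ℝ) ≤ p := by exact_mod_cast hp2
    nlinarith
  refine ⟨a 0, b 0, j₁, Q t, 0, ?_⟩
  have e0 : obs (a 0) (b 0) j₁ (PH H) (0 : Mt p n) = 0 := by
    have key : ∀ x : Fin n → ZMod p, ((0 : Mt p n).updateRow (a 0) x).det = 0 := by
      intro x
      obtain ⟨i, hi⟩ : ∃ i : Fin n, i ≠ a 0 := by
        by_contra hcon
        push Not at hcon
        have : Fintype.card (Fin n) ≤ 1 := by
          rw [Fintype.card_le_one_iff]
          intro u v
          rw [hcon u, hcon v]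
        simp at this
        omega
      apply Matrix.det_eq_zero_of_row_eq_zero i
      intro j
      rw [Matrix.updateRow_apply, if_neg hi]
      rfl
    unfold obs
    rw [key, key]
    ring
  rw [e0]
  unfold obs
  rw [hC0, mul_zero, sub_zero]
  exact mul_ne_zero ht (hC1 t ht0)

/-- **Exponential sums over the matrices of given determinant.** -/
theorem sum_det {n : ℕ} [Fintype (Idx n n)] (H : Idx n n → ZMod p) (hH : H ≠ 0)
    (hn : ∀ w : Idx n n, (w.1 : ℕ) + 1 = n → H w = 0) (hs : 6 * sav p (2 * n + 1) < 1)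
    (a : ZMod p) (ha : a ≠ 0) :
    ‖∑ g ∈ univ.filter (fun g : Mt p n => g.det = a), (ZMod.stdAddChar (PH H g) : ℂ)‖ ≤
      6 * sav p (4 * n + 2) * ((univ.filter fun g : Mt p n => g.det = a).card : ℝ) := by
  classical
  obtain ⟨i₀, j₀, j₁, x, y, hxy⟩ := obs_ne H hH hn hs
  refine (sum_le_obs i₀ j₀ j₁ (PH H) (RowAff_PH i₀ H) a).trans ?_
  have hp : 0 < p := (Fact.out : p.Prime).pos
  have hp2 : 2 ≤ p := (Fact.out : p.Prime).two_le
  set N : ℝ := ((Fintype.card (Mt p n) : ℕ) : ℝ) with hN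
  have hN0 : 0 ≤ N := Nat.cast_nonneg _
  -- upper bound
  have h1 := card_det i₀ (fun g : Mt p n => obs i₀ j₀ j₁ (PH H) g = 0)
    (fun g x => by rw [obs_upd]) a ha
  have h2 : ((univ.filter fun g : Mt p n => g.det ≠ 0 ∧ obs i₀ j₀ j₁ (PH H) g = 0).card : ℝ) ≤
      3 * (N * sav p (4 * n + 2)) := by
    refine le_trans ?_ (zeros (V := Mt p n) (4 * n + 2) _
      (PolyC_le (by omega) _ (PolyC_obs i₀ j₀ j₁ (PH H) (PolyC_PH H))) ⟨x, y, hxy⟩)
    norm_cast
    apply card_le_card
    intro g hg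
    rw [mem_filter] at hg ⊢
    exact ⟨hg.1, hg.2.2⟩
  have h3 : ((p : ℝ) - 1) * ((univ.filter fun g : Mt p n =>
      g.det = a ∧ obs i₀ j₀ j₁ (PH H) g = 0).card : ℝ) ≤ 3 * (N * sav p (4 * n + 2)) := by
    have h4 : ((p - 1 : ℕ) : ℝ) * ((univ.filter fun g : Mt p n =>
      g.det = a ∧ obs i₀ j₀ j₁ (PH H) g = 0).card : ℝ) =
      ((univ.filter fun g : Mt p n => g.det ≠ 0 ∧ obs i₀ j₀ j₁ (PH H) g = 0).card : ℝ) := by
      exact_mod_cast h1
    rw [Nat.cast_sub (by omega), Nat.cast_one] at h4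
    rw [h4]
    exact h2
  -- lower bound
  have h5 := card_det i₀ (fun _ : Mt p n => True) (fun g x => Iff.rfl) a ha
  simp only [and_true] at h5
  have hn1 : 0 < n := i₀.pos
  have h6 : ((univ.filter fun g : Mt p n => g.det = 0).card : ℝ) ≤
      3 * (N * sav p (2 * n + 1)) := by
    refine zeros (V := Mt p n) (2 * n + 1) _ (PolyC_det n) ⟨1, 0, ?_⟩
    have : Nonempty (Fin n) := ⟨i₀⟩
    rw [Matrix.det_one, Matrix.det_zero]
    exact one_ne_zero
  have h7 : ((univ.filter fun g : Mt p n => g.det = 0).card : ℝ) +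
      ((univ.filter fun g : Mt p n => g.det ≠ 0).card : ℝ) = N := by
    rw [hN, ← Finset.card_univ]
    have := card_filter_add_card_filter_not (s := (univ : Finset (Mt p n)))
      (fun g : Mt p n => g.det = 0)
    exact_mod_cast this
  have h8 : ((p : ℝ) - 1) * ((univ.filter fun g : Mt p n => g.det = a).card : ℝ) =
      ((univ.filter fun g : Mt p n => g.det ≠ 0).card : ℝ) := by
    have h4 : ((p - 1 : ℕ) : ℝ) * ((univ.filter fun g : Mt p n => g.det = a).card : ℝ) =
      ((univ.filter fun g : Mt p n => g.det ≠ 0).card : ℝ) := by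
      exact_mod_cast h5
    rwa [Nat.cast_sub (by omega), Nat.cast_one] at h4
  have h9 : N / 2 ≤ ((p : ℝ) - 1) * ((univ.filter fun g : Mt p n => g.det = a).card : ℝ) := by
    rw [h8]
    nlinarith
  have hp1 : (0 : ℝ) < (p : ℝ) - 1 := by
    have : (2 : ℝ) ≤ p := by exact_mod_cast hp2
    linarith
  have hsp := sav_pos p (4 * n + 2) hp
  refine le_of_mul_le_mul_left ?_ hp1
  calc ((p : ℝ) - 1) * ((univ.filter fun g : Mt p n =>
      g.det = a ∧ obs i₀ j₀ j₁ (PH H) g = 0).card : ℝ) ≤ 3 * (N * sav p (4 * n + 2)) := h3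
    _ = 6 * sav p (4 * n + 2) * (N / 2) := by ring
    _ ≤ 6 * sav p (4 * n + 2) *
        (((p : ℝ) - 1) * ((univ.filter fun g : Mt p n => g.det = a).card : ℝ)) := by gcongr
    _ = _ := by ring

end Pool.Agent.U505.MG
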