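import Pool.Agent.N39.RG.MainE
import Pool.Agent.N39.RG.Pairs

set_option autoImplicit false

/-!
# The criterion for record gaps, for an arbitrary finite set of coordinates
-/

namespace Pool.Agent.U505.MG

open Finset
open Pool.Agent.N39.RG (Far fam mainE fam_to_index)
open Pool.Agent.W147.PS (ff)

/-- All monomials with coprime exponents at most `E` in the integers `z j` are far from primes. -/
def Good {J : Type} [Fintype J] (E : ℕ) (B y : ℝ) (z : J → ℤ) : Prop :=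
  ∀ e : J → ℕ, (∀ j, e j ≤ E) → Finset.univ.gcd e = 1 →
    ∀ m : ℤ, |(m : ℝ) - ∏ j, (z j : ℝ) ^ e j| ≤ B → ∃ l : ℕ, l.Prime ∧ (l : ℝ) ≤ y ∧ (l : ℤ) ∣ m

open scoped Classical in
theorem engine (J : Type) [Fintype J] (E : ℕ) (δ : ℝ) (hδ : 0 < δ) (hδ1 : δ ≤ 1) :
    ∃ κ : ℝ, 0 < κ ∧ ∃ p₀ : ℕ, ∀ (p : ℕ) [Fact p.Prime], p₀ ≤ p →
    ∀ (ε : ℝ) (ι : Type) (S : Finset ι) (R : ι → J → ZMod p), S.Nonempty →
    (∀ α : J → ZMod p, α ≠ 0 →
      ‖∑ i ∈ S, (ZMod.stdAddChar (∑ j, α j * R i j) : ℂ)‖ ≤ S.card * (p : ℝ) ^ (-ε)) →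
    ∀ (M : J → ℤ) (L : J → ℕ), (∀ j, (p : ℝ) ^ δ ≤ L j ∧ L j ≤ p) →
      (p : ℝ) ^ ((Fintype.card J : ℝ) - ε + δ) ≤ ∏ j, (L j : ℝ) →
    (p : ℝ) ^ (-δ) * (S.card * ∏ j, ((L j : ℝ) / p)) ≤
      ((S.filter (fun i => ∃ z : J → ℤ,
        (∀ j, M j < z j ∧ z j ≤ M j + L j ∧ ((z j : ℤ) : ZMod p) = R i j) ∧
        Good E (κ * ff p) ((p : ℝ) ^ δ) z)).card : ℝ) := by
  obtain ⟨κ, hκ, p₀, h⟩ := mainE (Fintype.card J) E δ hδ hδ1
  refine ⟨κ, hκ, p₀, ?_⟩
  intro p _ hp ε ι S R hS hR M L hL hV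
  set t : Fin (Fintype.card J) ≃ J := (Fintype.equivFin J).symm with ht
  have h1 := h p hp ε ι S (fun i j => R i (t j)) hS (fun α hα => by
    have hα' : (fun j => α (t.symm j)) ≠ 0 := by
      intro h0
      apply hα
      funext j
      have := congrFun h0 (t j)
      simpa using this
    have h2 := hR _ hα'
    have h3 : ∀ i, ∑ j, α j * R i (t j) = ∑ j, α (t.symm j) * R i j := by
      intro i
      rw [← Equiv.sum_comp t]
      simp
    simp only [h3]
    exact h2) (fun j => M (t j)) (fun j => L (t j)) (fun j => (hL (t j)).2)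
    (fun j => (hL (t j)).1) (by
      refine hV.trans (le_of_eq ?_)
      rw [← Equiv.prod_comp t])
  have h4 : ∏ j, (((fun j => L (t j)) j : ℕ) : ℝ) / p = ∏ j, ((L j : ℝ) / p) := by
    rw [← Equiv.prod_comp t]
  rw [h4] at h1
  refine h1.trans ?_
  norm_cast
  have h5 := fam_to_index S (fun i j => R i (t j)) (fun j => M (t j)) (fun j => L (t j))
    (fun j => (hL (t j)).2) (fun z => ∀ e : Fin (Fintype.card J) → ℕ, (∀ i, e i ≤ E) →
      Finset.univ.gcd e = 1 → Far (∏ i, z i ^ e i) (κ * ff p) ((p : ℝ) ^ δ))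
  refine h5.trans (card_le_card ?_)
  intro i hi
  rw [mem_filter] at hi ⊢
  obtain ⟨hi1, z, hz1, hz2⟩ := hi
  refine ⟨hi1, fun j => z (t.symm j), ?_, ?_⟩
  · intro j
    have := hz1 (t.symm j)
    simpa using this
  · intro e he hg m hm
    have hg' : Finset.univ.gcd (fun j => e (t j)) = 1 := by
      rw [← hg]
      have : (univ : Finset J) = univ.map t.toEmbedding := by
        ext x; simp
      rw [this, Finset.gcd_eq_gcd_image]
      conv_rhs => rw [Finset.gcd_eq_gcd_image]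
      congr 1
      ext x
      simp only [mem_image, mem_univ, true_and, mem_map]
      constructor
      · rintro ⟨y, rfl⟩
        exact ⟨t y, ⟨y, rfl⟩, rfl⟩
      · rintro ⟨_, ⟨y, rfl⟩, rfl⟩
        exact ⟨y, rfl⟩
    refine hz2 (fun j => e (t j)) (fun j => he _) hg' m ?_
    refine le_trans (le_of_eq ?_) hm
    congr 2
    push_cast
    rw [← Equiv.prod_comp t]
    simp

end Pool.Agent.U505.MG
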