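import Pool.Agent.U505.MG.Ent
import Pool.Agent.U505.MG.Engine

set_option autoImplicit false

/-!
# Record gaps at the integer matrices with given determinant modulo a prime
-/

namespace Pool.Agent.U505.MG

open Finset Matrix Filter
open Pool.Agent.W147.PS (ff)

section

variable {p : ℕ} [Fact p.Prime]

/-- Exponential sums in the entries. -/
theorem ent_sum {n : ℕ} (H : Fin n → Fin n → ZMod p) (hH : H ≠ 0) (a : ZMod p) (ha : a ≠ 0) :
    ‖∑ g ∈ univ.filter (fun g : Mt p n => g.det = a), (ZMod.stdAddChar (pr H g) : ℂ)‖ ≤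
      ((univ.filter fun g : Mt p n => g.det = a).card : ℝ) * (p : ℝ) ^ (-((n : ℝ) - 1)) := by
  have hp0 : (0 : ℝ) < p := by exact_mod_cast (Fact.out : p.Prime).pos
  obtain ⟨i, j, hij⟩ : ∃ i j, H i j ≠ 0 := by
    by_contra hcon
    push Not at hcon
    exact hH (by funext i j; exact hcon i j)
  have hc : (fun i => H i j) ≠ 0 := fun h => hij (congrFun h i)
  refine (ent_le H j a).trans ?_
  have h1 := few_line (fun i => H i j) hc j a ha
  have h2 : ((univ.filter fun g : Mt p n => g.det = a ∧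
        ∀ k, k ≠ j → ((fun i => H i j) ᵥ* g) k = 0).card : ℝ) * (p : ℝ) ^ (n : ℝ) ≤
      ((univ.filter fun g : Mt p n => g.det = a).card : ℝ) * p := by
    rw [Real.rpow_natCast]
    exact_mod_cast h1
  have h3 : (0 : ℝ) < (p : ℝ) ^ (n : ℝ) := Real.rpow_pos_of_pos hp0 _
  rw [← le_div_iff₀ h3] at h2
  refine h2.trans (le_of_eq ?_)
  rw [neg_sub, Real.rpow_sub hp0, Real.rpow_one]
  ring

/-- The number of matrices of determinant `a`. -/
theorem card_SL_ge {n : ℕ} (hn : 1 ≤ n) (hs : 6 * sav p (2 * n + 1) < 1) (a : ZMod p)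
    (ha : a ≠ 0) :
    (p : ℝ) ^ (n * n) / 2 ≤ p * ((univ.filter fun g : Mt p n => g.det = a).card : ℝ) := by
  classical
  have hp : 0 < p := (Fact.out : p.Prime).pos
  have hp2 : 2 ≤ p := (Fact.out : p.Prime).two_le
  set i₀ : Fin n := ⟨0, hn⟩
  set N : ℝ := ((Fintype.card (Mt p n) : ℕ) : ℝ) with hN
  have hN0 : 0 ≤ N := Nat.cast_nonneg _
  have hN1 : N = (p : ℝ) ^ (n * n) := by
    rw [hN]
    have : Fintype.card (Mt p n) = p ^ (n * n) := by
      show Fintype.card (Fin n → Fin n → ZMod p) = p ^ (n * n)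
      rw [Fintype.card_fun, Fintype.card_fun, ZMod.card, Fintype.card_fin, ← pow_mul]
    rw [this]
    push_cast
    rfl
  have h5 := card_det i₀ (fun _ : Mt p n => True) (fun g x => Iff.rfl) a ha
  simp only [and_true] at h5
  have h6 : ((univ.filter fun g : Mt p n => g.det = 0).card : ℝ) ≤
      3 * (N * sav p (2 * n + 1)) := by
    refine zeros (V := Mt p n) (2 * n + 1) _ (PolyC_det n) ⟨1, 0, ?_⟩
    have : Nonempty (Fin n) := ⟨i₀⟩
    rw [Matrix.det_one, Matrix.det_zero]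
    exact one_ne_zero
  have h7 : ((univ.filter fun g : Mt p n => g.det = 0).card : ℝ) +
      ((univ.filter fun g : Mt p n => g.det ≠ 0).card : ℝ) = N := by
    rw [hN, ← Finset.card_univ]
    have := card_filter_add_card_filter_not (s := (univ : Finset (Mt p n)))
      (fun g : Mt p n => g.det = 0)
    exact_mod_cast this
  have h8 : ((p : ℝ) - 1) * ((univ.filter fun g : Mt p n => g.det = a).card : ℝ) =
      ((univ.filter fun g : Mt p n => g.det ≠ 0).card : ℝ) := by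
    have h4 : ((p - 1 : ℕ) : ℝ) * ((univ.filter fun g : Mt p n => g.det = a).card : ℝ) =
      ((univ.filter fun g : Mt p n => g.det ≠ 0).card : ℝ) := by
      exact_mod_cast h5
    rwa [Nat.cast_sub (by omega), Nat.cast_one] at h4
  rw [← hN1]
  have h10 : (0 : ℝ) ≤ ((univ.filter fun g : Mt p n => g.det = a).card : ℝ) := Nat.cast_nonneg _
  nlinarith

lemma det_nonempty {n : ℕ} (hn : 1 ≤ n) (a : ZMod p) :
    (univ.filter (fun g : Mt p n => g.det = a)).Nonempty := by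
  refine ⟨Matrix.diagonal (Function.update (fun _ => (1 : ZMod p)) ⟨0, hn⟩ a), ?_⟩
  rw [mem_filter, Matrix.det_diagonal]
  refine ⟨mem_univ _, ?_⟩
  rw [prod_update_of_mem (mem_univ _)]
  simp

end

lemma ev_sav' (m : ℕ) : ∃ P₀ : ℕ, ∀ P : ℕ, P₀ ≤ P → 6 * sav P m < 1 := by
  have h1 : Tendsto (fun x : ℝ => x ^ (-(1 / 2 ^ m : ℝ))) atTop (nhds 0) :=
    tendsto_rpow_neg_atTop (by positivity)
  have h2 := (h1.comp tendsto_natCast_atTop_atTop).eventually_lt_const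
    (show (0 : ℝ) < 1 / 6 by norm_num)
  obtain ⟨P₀, hP₀⟩ := eventually_atTop.1 h2
  refine ⟨P₀, fun P hP => ?_⟩
  have := hP₀ P hP
  simp only [Function.comp] at this
  unfold sav
  linarith

/-- The integer matrices of the box with determinant `≡ d` all of whose monomials are far from
primes. -/
def Sols {n : ℕ} (E : ℕ) (B y : ℝ) (p : ℕ) (d : ℤ) (M : Fin n → Fin n → ℤ)
    (L : Fin n → Fin n → ℕ) : Set (Matrix (Fin n) (Fin n) ℤ) :=
  {z | (∀ i j, M i j < z i j ∧ z i j ≤ M i j + L i j) ∧ (p : ℤ) ∣ z.det - d ∧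
    ∀ e : Fin n × Fin n → ℕ, (∀ x, e x ≤ E) → Finset.univ.gcd e = 1 →
      ∀ m : ℤ, |(m : ℝ) - ∏ x : Fin n × Fin n, (z x.1 x.2 : ℝ) ^ e x| ≤ B →
        ∃ l : ℕ, l.Prime ∧ (l : ℝ) ≤ y ∧ (l : ℤ) ∣ m}

lemma Sols_finite {n : ℕ} (E : ℕ) (B y : ℝ) (p : ℕ) (d : ℤ) (M : Fin n → Fin n → ℤ)
    (L : Fin n → Fin n → ℕ) : (Sols E B y p d M L).Finite := by
  have h1 : (Set.univ.pi fun i : Fin n => Set.univ.pi fun j : Fin n =>
      Set.Icc (M i j) (M i j + L i j)).Finite :=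
    Set.Finite.pi fun i => Set.Finite.pi fun j => Set.finite_Icc _ _
  refine h1.subset ?_
  rintro z ⟨hz, _⟩ i _ j _
  exact ⟨(hz i j).1.le, (hz i j).2⟩

theorem detEq (n E : ℕ) (hn : 2 ≤ n) (δ : ℝ) (hδ : 0 < δ) (hδ1 : δ ≤ 1) :
    ∃ κ : ℝ, 0 < κ ∧ ∃ p₀ : ℕ, ∀ p : ℕ, p.Prime → p₀ ≤ p → ∀ d : ℤ, ¬ (p : ℤ) ∣ d →
    ∀ (M : Fin n → Fin n → ℤ) (L : Fin n → Fin n → ℕ),
      (∀ i j, (p : ℝ) ^ δ ≤ L i j ∧ L i j ≤ p) →
      (p : ℝ) ^ ((n : ℝ) ^ 2 - n + 1 + δ) ≤ ∏ i, ∏ j, (L i j : ℝ) →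
      (∏ i, ∏ j, (L i j : ℝ)) / (p : ℝ) ^ (1 + δ) ≤
        ((Sols E (κ * ff p) ((p : ℝ) ^ δ) p d M L).ncard : ℝ) := by
  classical
  obtain ⟨κ, hκ, p₁, h⟩ := engine (Fin n × Fin n) E (δ / 2) (by positivity) (by linarith)
  obtain ⟨p₂, hp₂⟩ := ev_sav' (2 * n + 1)
  have hev : ∀ᶠ x : ℝ in atTop, 2 ≤ x ^ (δ / 2) :=
    (tendsto_rpow_atTop (by positivity)).eventually_ge_atTop 2
  obtain ⟨x₀, hx₀⟩ := eventually_atTop.mp hev
  obtain ⟨p₃, hp₃⟩ := exists_nat_ge x₀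
  refine ⟨κ, hκ, max p₁ (max p₂ p₃), ?_⟩
  intro p hp hpp d hd M L hL hV
  have : Fact p.Prime := ⟨hp⟩
  have hp1 : (1 : ℝ) < p := by exact_mod_cast hp.one_lt
  have hp0 : (0 : ℝ) < p := by linarith
  have g2 : 2 ≤ (p : ℝ) ^ (δ / 2) :=
    hx₀ p (hp₃.trans (by exact_mod_cast ((le_max_right _ _).trans (le_max_right _ _)).trans hpp))
  have hsav := hp₂ p (((le_max_left _ _).trans (le_max_right _ _)).trans hpp)
  have hmo : ∀ x y : ℝ, x ≤ y → (p : ℝ) ^ x ≤ (p : ℝ) ^ y := fun x y h =>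
    Real.rpow_le_rpow_of_exponent_le hp1.le h
  have ha : ((d : ℤ) : ZMod p) ≠ 0 := by
    rwa [Ne, ZMod.intCast_zmod_eq_zero_iff_dvd]
  have hprod : ∏ x : Fin n × Fin n, (L x.1 x.2 : ℝ) = ∏ i, ∏ j, (L i j : ℝ) :=
    Fintype.prod_prod_type' (fun i j => (L i j : ℝ))
  have hcJ : (Fintype.card (Fin n × Fin n) : ℝ) = (n : ℝ) ^ 2 := by
    rw [Fintype.card_prod, Fintype.card_fin]
    push_cast
    ring
  have h1 := h p ((le_max_left _ _).trans hpp) ((n : ℝ) - 1) (Mt p n)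
    (univ.filter (fun g : Mt p n => g.det = ((d : ℤ) : ZMod p)))
    (fun g x => g x.1 x.2) (det_nonempty (by omega) _) (fun α hα => by
      have hα' : (fun i j => α (i, j)) ≠ 0 := by
        intro h0
        apply hα
        funext x
        exact congrFun (congrFun h0 x.1) x.2
      have h2 := ent_sum (fun i j => α (i, j)) hα' _ ha
      have h3 : ∀ g : Mt p n, ∑ x : Fin n × Fin n, α x * g x.1 x.2 =
          pr (fun i j => α (i, j)) g := by
        intro g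
        unfold pr
        rw [Fintype.sum_prod_type]
      simp only [h3]
      exact h2) (fun x => M x.1 x.2) (fun x => L x.1 x.2)
    (fun x => ⟨(hmo _ _ (by linarith)).trans (hL x.1 x.2).1, (hL x.1 x.2).2⟩) (by
      rw [hcJ, hprod]
      refine le_trans (hmo _ _ ?_) hV
      linarith)
  have hfin := Sols_finite E (κ * ff p) ((p : ℝ) ^ δ) p d M L
  -- the lower bound
  have h4 : (∏ i, ∏ j, (L i j : ℝ)) / (p : ℝ) ^ (1 + δ) ≤ (p : ℝ) ^ (-(δ / 2)) *
      (((univ.filter (fun g : Mt p n => g.det = ((d : ℤ) : ZMod p))).card : ℝ) *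
        ∏ x : Fin n × Fin n, ((L x.1 x.2 : ℝ) / p)) := by
    have h5 := card_SL_ge (by omega : 1 ≤ n) hsav _ ha
    have h6 : ∏ x : Fin n × Fin n, ((L x.1 x.2 : ℝ) / p) =
        (∏ i, ∏ j, (L i j : ℝ)) / (p : ℝ) ^ (n * n) := by
      rw [prod_div_distrib, hprod, prod_const, card_univ, Fintype.card_prod, Fintype.card_fin]
    rw [h6]
    set V : ℝ := ∏ i, ∏ j, (L i j : ℝ) with hV'
    have hV0 : 0 ≤ V := prod_nonneg fun i _ => prod_nonneg fun j _ => Nat.cast_nonneg _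
    set s : ℝ := ((univ.filter (fun g : Mt p n => g.det = ((d : ℤ) : ZMod p))).card : ℝ)
    have hpn : (0 : ℝ) < (p : ℝ) ^ (n * n) := by positivity
    have h7 : 1 / (2 * (p : ℝ)) ≤ s / (p : ℝ) ^ (n * n) := by
      rw [div_le_div_iff₀ (by positivity) hpn]
      linarith
    have h8 : (p : ℝ) ^ (1 + δ) = p * ((p : ℝ) ^ (δ / 2) * (p : ℝ) ^ (δ / 2)) := by
      rw [← Real.rpow_add hp0, Real.rpow_add hp0, Real.rpow_one]
      congr 2
      ring
    have h9 : (p : ℝ) ^ (-(δ / 2)) = ((p : ℝ) ^ (δ / 2))⁻¹ := Real.rpow_neg hp0.le _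
    set b : ℝ := (p : ℝ) ^ (δ / 2)
    have hb0 : 0 < b := by linarith
    rw [h8, h9]
    calc V / (p * (b * b)) ≤ V / (p * (2 * b)) := by gcongr
      _ = b⁻¹ * (V * (1 / (2 * (p : ℝ)))) := by field_simp
      _ ≤ b⁻¹ * (V * (s / (p : ℝ) ^ (n * n))) := by gcongr
      _ = b⁻¹ * (s * (V / (p : ℝ) ^ (n * n))) := by ring
  refine h4.trans (h1.trans ?_)
  norm_cast
  rw [← Set.ncard_coe_finset]
  -- an injection
  have hinj : ∀ g ∈ (((univ.filter (fun g : Mt p n => g.det = ((d : ℤ) : ZMod p))).filter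
      (fun i => ∃ z : Fin n × Fin n → ℤ,
        (∀ j, M j.1 j.2 < z j ∧ z j ≤ M j.1 j.2 + L j.1 j.2 ∧ ((z j : ℤ) : ZMod p) = i j.1 j.2) ∧
        Good E (κ * ff p) ((p : ℝ) ^ (δ / 2)) z) : Finset (Mt p n)) : Set (Mt p n)),
      ∃ z : Matrix (Fin n) (Fin n) ℤ, z ∈ Sols E (κ * ff p) ((p : ℝ) ^ δ) p d M L ∧
        z.map (Int.cast : ℤ → ZMod p) = g := by
    intro g hg
    rw [mem_coe, mem_filter, mem_filter] at hg
    obtain ⟨⟨_, hdet⟩, z, hz1, hz2⟩ := hg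
    have hmap : (Matrix.of fun i j => z (i, j)).map (Int.cast : ℤ → ZMod p) = g := by
      ext i j
      exact (hz1 (i, j)).2.2
    refine ⟨Matrix.of fun i j => z (i, j), ⟨fun i j => ⟨(hz1 (i, j)).1, (hz1 (i, j)).2.1⟩, ?_, ?_⟩,
      hmap⟩
    · rw [← ZMod.intCast_zmod_eq_zero_iff_dvd, Int.cast_sub, sub_eq_zero, ← hdet, ← hmap]
      exact (Int.castRingHom (ZMod p)).map_det _
    · intro e he hg m hm
      obtain ⟨l, hl1, hl2, hl3⟩ := hz2 e he hg m hm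
      exact ⟨l, hl1, hl2.trans (hmo _ _ (by linarith)), hl3⟩
  choose! F hF1 hF2 using hinj
  refine Set.ncard_le_ncard_of_injOn F (fun g hg => hF1 g hg) ?_ hfin
  intro g hg g' hg' hgg
  rw [← hF2 g hg, ← hF2 g' hg', hgg]

end Pool.Agent.U505.MG
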