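import Pool.Agent.U505.MG.Det2

set_option autoImplicit false

/-!
# Exponential sums in the entries of the matrices of given determinant
-/

namespace Pool.Agent.U505.MG

open Finset Matrix

variable {p : ℕ} [Fact p.Prime]

/-- Right multiplication by a transvection. -/
def tv {n : ℕ} (g : Mt p n) (u w : Fin n → ZMod p) : Mt p n := g * (1 + vecMulVec u w)

lemma det_tv {n : ℕ} (g : Mt p n) (u w : Fin n → ZMod p) (h : w ⬝ᵥ u = 0) :
    (tv g u w).det = g.det := by
  unfold tv
  rw [det_mul, vecMulVec_eq Unit, det_one_add_replicateCol_mul_replicateRow, h]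
  ring

lemma tv_eq {n : ℕ} (g : Mt p n) (u w : Fin n → ZMod p) :
    tv g u w = g + vecMulVec (g *ᵥ u) w := by
  unfold tv
  rw [mul_add, mul_one, mul_vecMulVec]

lemma vecMul_tv {n : ℕ} (c : Fin n → ZMod p) (g : Mt p n) (u w : Fin n → ZMod p) :
    c ᵥ* tv g u w = c ᵥ* g + ((c ᵥ* g) ⬝ᵥ u) • w := by
  rw [tv_eq, vecMul_add, vecMul_vecMulVec, dotProduct_mulVec]

lemma tv_tv {n : ℕ} (g : Mt p n) (u w : Fin n → ZMod p) (h : w ⬝ᵥ u = 0) :
    tv (tv g u w) (-u) w = g := by
  have h1 : tv g u w *ᵥ (-u) = -(g *ᵥ u) := by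
    rw [tv_eq, add_mulVec, vecMulVec_mulVec, dotProduct_neg, h, mulVec_neg]
    simp
  rw [tv_eq (tv g u w), h1, tv_eq, neg_vecMulVec]
  simp

/-- The frequency `H` at `g`. -/
def pr {n : ℕ} (H : Fin n → Fin n → ZMod p) (g : Mt p n) : ZMod p := ∑ i, ∑ k, H i k * g i k

lemma pr_tv {n : ℕ} (H : Fin n → Fin n → ZMod p) (g : Mt p n) (u : Fin n → ZMod p) (j : Fin n) :
    pr H (tv g u (Pi.single j 1)) = pr H g + ((fun i => H i j) ᵥ* g) ⬝ᵥ u := by
  have h1 : ∀ i, ∑ k, H i k * tv g u (Pi.single j 1) i k =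
      ∑ k, H i k * g i k + H i j * (g *ᵥ u) i := by
    intro i
    rw [tv_eq]
    simp only [Matrix.add_apply, vecMulVec_apply, mul_add, sum_add_distrib]
    congr 1
    rw [sum_eq_single j]
    · simp
    · intro k _ hk
      rw [Pi.single_eq_of_ne hk]
      ring
    · intro h; exact absurd (mem_univ _) h
  unfold pr
  rw [sum_congr rfl fun i _ => h1 i, sum_add_distrib, ← dotProduct_mulVec]
  rfl

/-- The sum is supported on the matrices whose `c`-combination of rows is a multiple of `e_j`. -/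
theorem ent_le {n : ℕ} (H : Fin n → Fin n → ZMod p) (j : Fin n) (a : ZMod p) :
    ‖∑ g ∈ univ.filter (fun g : Mt p n => g.det = a), (ZMod.stdAddChar (pr H g) : ℂ)‖ ≤
      ((univ.filter fun g : Mt p n => g.det = a ∧
        ∀ k, k ≠ j → ((fun i => H i j) ᵥ* g) k = 0).card : ℝ) := by
  classical
  set c : Fin n → ZMod p := fun i => H i j with hc
  set S := univ.filter (fun g : Mt p n => g.det = a) with hS
  have hort : ∀ v : Fin n → ZMod p,
      (Pi.single j 1 : Fin n → ZMod p) ⬝ᵥ (Function.update v j 0) = 0 := by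
    intro v; simp
  have h1 : ∀ v : Fin n → ZMod p, ∑ g ∈ S, (ZMod.stdAddChar (pr H g) : ℂ) =
      ∑ g ∈ S, (ZMod.stdAddChar (pr H g + (c ᵥ* g) ⬝ᵥ (Function.update v j 0)) : ℂ) := by
    intro v
    symm
    have hort' : (Pi.single j 1 : Fin n → ZMod p) ⬝ᵥ (-(Function.update v j 0)) = 0 := by
      rw [dotProduct_neg, hort, neg_zero]
    refine sum_nbij' (fun g => tv g (Function.update v j 0) (Pi.single j 1))
      (fun g => tv g (-(Function.update v j 0)) (Pi.single j 1)) ?_ ?_ ?_ ?_ ?_
    · intro g hg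
      rw [hS, mem_filter] at hg ⊢
      exact ⟨mem_univ _, by rw [det_tv _ _ _ (hort v)]; exact hg.2⟩
    · intro g hg
      rw [hS, mem_filter] at hg ⊢
      exact ⟨mem_univ _, by rw [det_tv _ _ _ hort']; exact hg.2⟩
    · intro g _
      exact tv_tv _ _ _ (hort v)
    · intro g _
      have := tv_tv g _ _ hort'
      rwa [neg_neg] at this
    · intro g _
      rw [pr_tv]
  have h2 : (Fintype.card (Fin n → ZMod p) : ℂ) * ∑ g ∈ S, (ZMod.stdAddChar (pr H g) : ℂ) =
      (Fintype.card (Fin n → ZMod p) : ℂ) *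
        ∑ g ∈ S.filter (fun g => ∀ k, k ≠ j → (c ᵥ* g) k = 0),
          (ZMod.stdAddChar (pr H g) : ℂ) := by
    have e1 : (Fintype.card (Fin n → ZMod p) : ℂ) * ∑ g ∈ S, (ZMod.stdAddChar (pr H g) : ℂ) =
        ∑ v : Fin n → ZMod p, ∑ g ∈ S,
          (ZMod.stdAddChar (pr H g + (c ᵥ* g) ⬝ᵥ (Function.update v j 0)) : ℂ) := by
      rw [← sum_congr rfl fun v _ => h1 v, sum_const, card_univ, nsmul_eq_mul]
    have e0 : ∑ g ∈ S.filter (fun g => ∀ k, k ≠ j → (c ᵥ* g) k = 0),
        (ZMod.stdAddChar (pr H g) : ℂ) =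
        ∑ g ∈ S, if (∀ k, k ≠ j → (c ᵥ* g) k = 0) then (ZMod.stdAddChar (pr H g) : ℂ) else 0 :=
      sum_filter _ _
    rw [e1, sum_comm, e0, mul_sum]
    refine sum_congr rfl fun g _ => ?_
    have e2 : ∀ v : Fin n → ZMod p,
        (ZMod.stdAddChar (pr H g + (c ᵥ* g) ⬝ᵥ (Function.update v j 0)) : ℂ) =
        ZMod.stdAddChar (pr H g) *
          ZMod.stdAddChar ((c ᵥ* g) ⬝ᵥ (Function.update v j 0)) := by
      intro v
      rw [AddChar.map_add_eq_mul]
    rw [sum_congr rfl fun v _ => e2 v, ← mul_sum]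
    by_cases hg : ∀ k, k ≠ j → (c ᵥ* g) k = 0
    · rw [if_pos hg]
      have e3 : ∀ v : Fin n → ZMod p, (c ᵥ* g) ⬝ᵥ (Function.update v j 0) = 0 := by
        intro v
        unfold dotProduct
        refine sum_eq_zero fun k _ => ?_
        by_cases hk : k = j
        · subst hk; simp
        · rw [hg k hk, zero_mul]
      simp only [e3, AddChar.map_zero_eq_one, sum_const, card_univ, nsmul_eq_mul, mul_one]
      ring
    · rw [if_neg hg]
      push Not at hg
      obtain ⟨k, hk, hk0⟩ := hg
      have e4 : W (V := Fin n → ZMod p)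
          (fun v => (c ᵥ* g) ⬝ᵥ (Function.update v j 0)) = 0 := by
        refine W_eq_zero_of_affine _ (Pi.single k 1) ((c ᵥ* g) k) hk0 ?_
        intro v
        have e5 : Function.update (v + Pi.single k 1) j 0 =
            Function.update v j 0 + (Pi.single k 1 : Fin n → ZMod p) := by
          funext i
          by_cases hi : i = j
          · subst hi
            simp [Pi.single_eq_of_ne (Ne.symm hk)]
          · simp [Function.update_of_ne hi]
        rw [e5, dotProduct_add]
        simp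
      unfold W at e4
      rw [e4, mul_zero, mul_zero]
  have hc0 : (Fintype.card (Fin n → ZMod p) : ℂ) ≠ 0 := by
    exact_mod_cast Fintype.card_ne_zero
  rw [mul_left_cancel₀ hc0 h2]
  refine (norm_sum_le _ _).trans ?_
  simp only [norm_stdAddChar, sum_const, nsmul_eq_mul, mul_one]
  rw [hS, filter_filter]

/-- Few matrices `g` of determinant `a` have `c g` on the line of `e_j`. -/
theorem few_line {n : ℕ} (c : Fin n → ZMod p) (hc : c ≠ 0) (j : Fin n) (a : ZMod p) (ha : a ≠ 0) :
    (univ.filter fun g : Mt p n => g.det = a ∧ ∀ k, k ≠ j → (c ᵥ* g) k = 0).card * p ^ n ≤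
      (univ.filter fun g : Mt p n => g.det = a).card * p := by
  classical
  set B := univ.filter fun g : Mt p n => g.det = a ∧ ∀ k, k ≠ j → (c ᵥ* g) k = 0 with hB
  have hcard : Fintype.card (Fin n → ZMod p) = p ^ n := by
    rw [Fintype.card_fun, ZMod.card, Fintype.card_fin]
  have hort : ∀ w : Fin n → ZMod p,
      (Function.update w j 0) ⬝ᵥ (Pi.single j 1 : Fin n → ZMod p) = 0 := by
    intro v; simp
  rw [← hcard, ← card_univ, ← card_product]
  have e2 : (univ.filter fun g : Mt p n => g.det = a).card * p =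
      ((univ.filter fun g : Mt p n => g.det = a) ×ˢ (univ : Finset (ZMod p))).card := by
    rw [card_product, card_univ, ZMod.card]
  rw [e2]
  refine card_le_card_of_injOn
    (fun x => (tv x.1 (Pi.single j 1) (Function.update x.2 j 0), x.2 j)) ?_ ?_
  · rintro ⟨g, w⟩ hx
    simp only [coe_product, Set.mem_prod, mem_coe, hB, mem_filter, mem_univ, true_and,
      and_true] at hx ⊢
    rw [det_tv _ _ _ (hort w)]
    exact hx.1
  · rintro ⟨g, w⟩ hx ⟨g', w'⟩ hx' heq
    simp only [coe_product, Set.mem_prod, mem_coe, hB, mem_filter, mem_univ, true_and,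
      and_true] at hx hx'
    simp only [Prod.mk.injEq] at heq
    obtain ⟨h1, h2⟩ := heq
    have key : ∀ (g : Mt p n) (w : Fin n → ZMod p), g.det = a →
        (∀ k, k ≠ j → (c ᵥ* g) k = 0) → (c ᵥ* g) j ≠ 0 ∧
        ∀ k, (c ᵥ* tv g (Pi.single j 1) (Function.update w j 0)) k =
          (c ᵥ* g) j * (if k = j then 1 else w k) := by
      intro g w hg hk
      refine ⟨?_, ?_⟩
      · intro h0
        have h3 : c ᵥ* g = 0 := by
          funext k
          by_cases hkj : k = j
          · rw [hkj, h0]; rfl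
          · rw [hk k hkj]; rfl
        apply hc
        exact eq_zero_of_vecMul_eq_zero (by rw [hg]; exact ha) h3
      · intro k
        rw [vecMul_tv]
        simp only [Pi.add_apply, Pi.smul_apply, smul_eq_mul, dotProduct_single, mul_one]
        by_cases hkj : k = j
        · subst hkj
          simp
        · rw [hk k hkj, Function.update_of_ne hkj, if_neg hkj, zero_add]
    obtain ⟨k1, k2⟩ := key g w hx.1 hx.2
    obtain ⟨k3, k4⟩ := key g' w' hx'.1 hx'.2
    have hjj : (c ᵥ* g) j = (c ᵥ* g') j := by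
      have h5 := k2 j
      have h6 := k4 j
      rw [if_pos rfl, mul_one] at h5 h6
      rw [← h5, ← h6, h1]
    have hw : w = w' := by
      funext k
      by_cases hkj : k = j
      · rw [hkj, h2]
      · have h5 := k2 k
        have h6 := k4 k
        rw [if_neg hkj] at h5 h6
        rw [h1, h6, ← hjj] at h5
        exact (mul_left_cancel₀ k1 h5).symm
    subst hw
    have hort' : ∀ w : Fin n → ZMod p,
        (Function.update w j 0) ⬝ᵥ (Pi.single j 1 : Fin n → ZMod p) = 0 := hort
    have h7 := tv_tv g (Pi.single j 1) (Function.update w j 0) (hort w)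
    have h8 := tv_tv g' (Pi.single j 1) (Function.update w j 0) (hort w)
    rw [← h7, ← h8, h1]

end Pool.Agent.U505.MG
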