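import Pool.Agent.U505.MG.Det2

set_option autoImplicit false

/-!
# Functions that are polynomials of degree at most `d` on every line
-/

namespace Pool.Agent.U505.MG

open Finset

variable {p : ℕ} [Fact p.Prime]

/-- `D` is a polynomial of degree at most `d` on every line. -/
def PolyL {V : Type} [AddCommGroup V] [Module (ZMod p) V] (d : ℕ) (D : V → ZMod p) : Prop :=
  ∀ x v : V, ∃ q : Polynomial (ZMod p), q.natDegree ≤ d ∧ ∀ t : ZMod p, D (x + t • v) = q.eval t

section

variable {V : Type} [AddCommGroup V] [Module (ZMod p) V]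

lemma PolyL_const (c : ZMod p) : PolyL 0 (fun _ : V => c) := by
  intro x v
  exact ⟨Polynomial.C c, by simp, fun t => by simp⟩

lemma PolyL_mono {d d' : ℕ} (h : d ≤ d') {D : V → ZMod p} (hD : PolyL d D) : PolyL d' D := by
  intro x v
  obtain ⟨q, h1, h2⟩ := hD x v
  exact ⟨q, h1.trans h, h2⟩

lemma PolyL_add {d : ℕ} {D D' : V → ZMod p} (hD : PolyL d D) (hD' : PolyL d D') :
    PolyL d (fun x => D x + D' x) := by
  intro x v
  obtain ⟨q, h1, h2⟩ := hD x v
  obtain ⟨q', h1', h2'⟩ := hD' x v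
  refine ⟨q + q', Polynomial.natDegree_add_le_of_degree_le h1 h1', fun t => ?_⟩
  rw [Polynomial.eval_add, ← h2, ← h2']

lemma PolyL_smul {d : ℕ} (c : ZMod p) {D : V → ZMod p} (hD : PolyL d D) :
    PolyL d (fun x => c * D x) := by
  intro x v
  obtain ⟨q, h1, h2⟩ := hD x v
  refine ⟨Polynomial.C c * q, (Polynomial.natDegree_C_mul_le _ _).trans h1, fun t => ?_⟩
  rw [Polynomial.eval_mul, Polynomial.eval_C, ← h2]

lemma PolyL_mul {d d' : ℕ} {D D' : V → ZMod p} (hD : PolyL d D) (hD' : PolyL d' D') :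
    PolyL (d + d') (fun x => D x * D' x) := by
  intro x v
  obtain ⟨q, h1, h2⟩ := hD x v
  obtain ⟨q', h1', h2'⟩ := hD' x v
  refine ⟨q * q', Polynomial.natDegree_mul_le.trans (add_le_add h1 h1'), fun t => ?_⟩
  rw [Polynomial.eval_mul, ← h2, ← h2']

lemma PolyL_sum {ι : Type} (s : Finset ι) {d : ℕ} (f : ι → V → ZMod p)
    (hf : ∀ i ∈ s, PolyL d (f i)) : PolyL d (fun x => ∑ i ∈ s, f i x) := by
  classical
  induction s using Finset.induction_on with
  | empty => simpa using PolyL_mono (Nat.zero_le _) (PolyL_const (V := V) (0 : ZMod p))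
  | insert i s hi ih =>
    have h1 := PolyL_add (hf i (mem_insert_self _ _))
      (ih fun j hj => hf j (mem_insert_of_mem hj))
    simpa [sum_insert hi] using h1

lemma PolyL_prod {ι : Type} (s : Finset ι) (m : ι → ℕ) (f : ι → V → ZMod p)
    (hf : ∀ i ∈ s, PolyL (m i) (f i)) : PolyL (∑ i ∈ s, m i) (fun x => ∏ i ∈ s, f i x) := by
  classical
  induction s using Finset.induction_on with
  | empty => simpa using PolyL_const (V := V) (1 : ZMod p)
  | insert i s hi ih =>
    have h1 := PolyL_mul (hf i (mem_insert_self _ _))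
      (ih fun j hj => hf j (mem_insert_of_mem hj))
    simpa [prod_insert hi, sum_insert hi] using h1

lemma PolyL_lin (l : V →ₗ[ZMod p] ZMod p) : PolyL 1 (fun x => l x) := by
  intro x v
  refine ⟨Polynomial.C (l v) * Polynomial.X + Polynomial.C (l x),
    Polynomial.natDegree_linear_le, fun t => ?_⟩
  show l (x + t • v) = _
  rw [map_add, map_smul, Polynomial.eval_add, Polynomial.eval_mul, Polynomial.eval_C,
    Polynomial.eval_X, Polynomial.eval_C, smul_eq_mul]
  ring

lemma PolyL_comp {V' : Type} [AddCommGroup V'] [Module (ZMod p) V'] {d : ℕ} (φ : V → V')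
    (A : V → V') (hφ : ∀ (x : V) (t : ZMod p) (v : V), φ (x + t • v) = φ x + t • A v)
    {f : V' → ZMod p} (hf : PolyL d f) : PolyL d (fun x => f (φ x)) := by
  intro x v
  obtain ⟨q, h1, h2⟩ := hf (φ x) (A v)
  exact ⟨q, h1, fun t => by
    show f (φ (x + t • v)) = _
    rw [hφ, h2]⟩

/-- Few zeros. -/
theorem zerosL [Fintype V] {d : ℕ} {D : V → ZMod p} (hD : PolyL d D) (h0 : ∃ x, D x ≠ 0) :
    (p - 1) * (univ.filter fun x => D x = 0).card ≤ d * Fintype.card V := by
  classical
  obtain ⟨x₀, hx₀⟩ := h0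
  have e1 : ∑ t ∈ univ.erase (0 : ZMod p), (univ.filter fun v : V => D (x₀ + t • v) = 0).card =
      (p - 1) * (univ.filter fun x => D x = 0).card := by
    have : ∀ t ∈ univ.erase (0 : ZMod p), (univ.filter fun v : V => D (x₀ + t • v) = 0).card =
        (univ.filter fun x => D x = 0).card := by
      intro t ht
      have ht0 : t ≠ 0 := ne_of_mem_erase ht
      refine card_nbij' (fun v => x₀ + t • v) (fun x => t⁻¹ • (x - x₀)) ?_ ?_ ?_ ?_
      · intro v hv
        simpa using hv
      · intro x hx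
        simp only [coe_filter, mem_univ, true_and, Set.mem_setOf_eq] at hx ⊢
        rw [smul_smul, mul_inv_cancel₀ ht0, one_smul, add_sub_cancel]
        exact hx
      · intro v _
        simp only [add_sub_cancel_left]
        rw [smul_smul, inv_mul_cancel₀ ht0, one_smul]
      · intro x _
        simp only
        rw [smul_smul, mul_inv_cancel₀ ht0, one_smul, add_sub_cancel]
    rw [sum_congr rfl this, sum_const, card_erase_of_mem (mem_univ _), card_univ, ZMod.card,
      smul_eq_mul]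
  rw [← e1]
  have e2 : ∑ t ∈ univ.erase (0 : ZMod p), (univ.filter fun v : V => D (x₀ + t • v) = 0).card =
      ∑ v : V, ((univ.erase (0 : ZMod p)).filter fun t => D (x₀ + t • v) = 0).card := by
    simp only [card_filter]
    rw [sum_comm]
  rw [e2]
  have e3 : ∀ v : V, ((univ.erase (0 : ZMod p)).filter fun t => D (x₀ + t • v) = 0).card ≤ d := by
    intro v
    obtain ⟨q, h1, h2⟩ := hD x₀ v
    have hq : q ≠ 0 := by
      rintro rfl
      have := h2 0
      rw [zero_smul, add_zero, Polynomial.eval_zero] at this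
      exact hx₀ this
    refine le_trans ?_ h1
    refine le_trans ?_ (Polynomial.card_roots' q)
    refine le_trans ?_ (Multiset.toFinset_card_le _)
    apply card_le_card
    intro t ht
    rw [mem_filter] at ht
    rw [Multiset.mem_toFinset, Polynomial.mem_roots hq, Polynomial.IsRoot.def, ← h2]
    exact ht.2
  refine (sum_le_sum fun v _ => e3 v).trans ?_
  rw [sum_const, card_univ, smul_eq_mul, mul_comm]

end

lemma PolyL_minor {m n k : ℕ} (a : Fin k → Fin m) (b : Fin k → Fin n) :
    PolyL k (fun g : Matrix (Fin m) (Fin n) (ZMod p) => minor a b g) := by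
  have h1 : (fun g : Matrix (Fin m) (Fin n) (ZMod p) => minor a b g) =
      fun g => ∑ σ : Equiv.Perm (Fin k), ((Equiv.Perm.sign σ : ℤ) : ZMod p) *
        ∏ i, g (a (σ i)) (b i) := by
    funext g
    unfold minor
    rw [Matrix.det_apply']
    rfl
  rw [h1]
  refine PolyL_sum _ _ fun σ _ => PolyL_smul _ ?_
  have h2 := PolyL_prod (V := Matrix (Fin m) (Fin n) (ZMod p)) univ (fun _ : Fin k => 1)
    (fun i g => g (a (σ i)) (b i))
    (fun i _ => PolyL_lin ((LinearMap.proj (b i) : (Fin n → ZMod p) →ₗ[ZMod p] ZMod p) ∘ₗ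
      (LinearMap.proj (a (σ i)) : (Fin m → Fin n → ZMod p) →ₗ[ZMod p] (Fin n → ZMod p))))
  simpa using h2

lemma PolyL_det (n : ℕ) : PolyL n (fun g : Mt p n => g.det) := by
  have := PolyL_minor (p := p) (m := n) (n := n) (k := n) id id
  simpa [minor] using this

lemma PolyL_upd {n m : ℕ} (i₀ : Fin n) {P : Mt p n → ZMod p} (hP : PolyL m P)
    (x : Fin n → ZMod p) : PolyL m (fun g : Mt p n => P (g.updateRow i₀ x)) := by
  refine PolyL_comp (fun g : Mt p n => g.updateRow i₀ x) (fun h : Mt p n => h.updateRow i₀ 0)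
    ?_ hP
  intro g t h
  ext i j
  simp only [Matrix.updateRow_apply, Matrix.add_apply, Matrix.smul_apply]
  split_ifs <;> simp

lemma PolyL_co {n m : ℕ} (i₀ : Fin n) {P : Mt p n → ZMod p} (hP : PolyL m P) (j : Fin n) :
    PolyL m (fun g => co i₀ P j g) := by
  have h1 := PolyL_add (PolyL_upd i₀ hP (Pi.single j 1)) (PolyL_smul (-1) (PolyL_upd i₀ hP 0))
  have : (fun g => co i₀ P j g) = fun g : Mt p n => P (g.updateRow i₀ (Pi.single j 1)) +
      (-1) * P (g.updateRow i₀ 0) := by
    funext g; unfold co; ring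
  rw [this]; exact h1

lemma PolyL_obs {n m : ℕ} (i₀ j₀ j₁ : Fin n) {P : Mt p n → ZMod p} (hP : PolyL m P) :
    PolyL (m + n) (fun g => obs i₀ j₀ j₁ P g) := by
  have h1 := PolyL_add
    (PolyL_mul (PolyL_co i₀ hP j₀) (PolyL_upd i₀ (PolyL_det (p := p) n) (Pi.single j₁ 1)))
    (PolyL_smul (-1) (PolyL_mul (PolyL_co i₀ hP j₁)
      (PolyL_upd i₀ (PolyL_det (p := p) n) (Pi.single j₀ 1))))
  have : (fun g => obs i₀ j₀ j₁ P g) = fun g : Mt p n =>
      co i₀ P j₀ g * (g.updateRow i₀ (Pi.single j₁ 1)).det +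
        (-1) * (co i₀ P j₁ g * (g.updateRow i₀ (Pi.single j₀ 1)).det) := by
    funext g; unfold obs; ring
  rw [this]; exact h1

lemma PolyL_PH {n : ℕ} [Fintype (Idx n n)] (H : Idx n n → ZMod p) : PolyL n (PH H) := by
  unfold PH
  refine PolyL_sum _ _ fun w _ => PolyL_smul _ ?_
  refine PolyL_mono ?_ (PolyL_minor _ _)
  have := w.1.2
  omega

/-- The number of matrices of determinant `a`. -/
theorem card_det_ge {n : ℕ} (hn : 1 ≤ n) (hp : 2 * n + 1 ≤ p) (a : ZMod p) (ha : a ≠ 0) :
    Fintype.card (Mt p n) ≤ 2 * ((p - 1) * (univ.filter fun g : Mt p n => g.det = a).card) := by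
  classical
  set i₀ : Fin n := ⟨0, hn⟩
  have h5 := card_det i₀ (fun _ : Mt p n => True) (fun g x => Iff.rfl) a ha
  simp only [and_true] at h5
  have h6 := zerosL (V := Mt p n) (PolyL_det (p := p) n) ⟨1, by
    rw [Matrix.det_one]; exact one_ne_zero⟩
  have h7 := card_filter_add_card_filter_not (s := (univ : Finset (Mt p n)))
      (fun g : Mt p n => g.det = 0)
  rw [card_univ] at h7
  rw [h5]
  simp only [ne_eq]
  set N := Fintype.card (Mt p n)
  set z := (univ.filter fun g : Mt p n => g.det = 0).card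
  have h8 : 2 * n * z ≤ (p - 1) * z := Nat.mul_le_mul_right _ (by omega)
  have h9 : n * (2 * z) ≤ n * N := by
    calc n * (2 * z) = 2 * n * z := by ring
      _ ≤ _ := h8.trans h6
  have h10 : 2 * z ≤ N := Nat.le_of_mul_le_mul_left h9 hn
  omega

/-- **Exponential sums over the matrices of given determinant**, with the saving `p`. -/
theorem sum_detL {n : ℕ} [Fintype (Idx n n)] (H : Idx n n → ZMod p) (hH : H ≠ 0)
    (hn : ∀ w : Idx n n, (w.1 : ℕ) + 1 = n → H w = 0) (hs : 6 * sav p (2 * n + 1) < 1)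
    (hp : 2 * n + 1 ≤ p) (a : ZMod p) (ha : a ≠ 0) :
    ‖∑ g ∈ univ.filter (fun g : Mt p n => g.det = a), (ZMod.stdAddChar (PH H g) : ℂ)‖ ≤
      (8 * n / p : ℝ) * ((univ.filter fun g : Mt p n => g.det = a).card : ℝ) := by
  classical
  obtain ⟨i₀, j₀, j₁, x, y, hxy⟩ := obs_ne H hH hn hs
  have hn1 : 1 ≤ n := i₀.pos
  refine (sum_le_obs i₀ j₀ j₁ (PH H) (RowAff_PH i₀ H) a).trans ?_
  have h1 := card_det i₀ (fun g : Mt p n => obs i₀ j₀ j₁ (PH H) g = 0)
    (fun g x => by rw [obs_upd]) a ha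
  have h2 := zerosL (V := Mt p n) (PolyL_obs i₀ j₀ j₁ (PolyL_PH H)) (by
    by_contra hcon
    push Not at hcon
    exact hxy (by rw [hcon x, hcon y]))
  have h3 : (univ.filter fun g : Mt p n => g.det ≠ 0 ∧ obs i₀ j₀ j₁ (PH H) g = 0).card ≤
      (univ.filter fun g : Mt p n => obs i₀ j₀ j₁ (PH H) g = 0).card := by
    apply card_le_card
    intro g hg
    rw [mem_filter] at hg ⊢
    exact ⟨hg.1, hg.2.2⟩
  have h4 := card_det_ge hn1 hp a ha
  set B := (univ.filter fun g : Mt p n => g.det = a ∧ obs i₀ j₀ j₁ (PH H) g = 0).card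
  set s := (univ.filter fun g : Mt p n => g.det = a).card
  have hp1 : 0 < p - 1 := by omega
  have h5 : (p - 1) * B ≤ 4 * n * s := by
    have h6 : (p - 1) * ((p - 1) * B) ≤ (p - 1) * (4 * n * s) := by
      calc (p - 1) * ((p - 1) * B) ≤ (p - 1) *
          (univ.filter fun g : Mt p n => obs i₀ j₀ j₁ (PH H) g = 0).card := by
            apply Nat.mul_le_mul_left
            rw [h1]; exact h3
        _ ≤ (n + n) * Fintype.card (Mt p n) := h2
        _ ≤ (n + n) * (2 * ((p - 1) * s)) := Nat.mul_le_mul_left _ h4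
        _ = (p - 1) * (4 * n * s) := by ring
    exact Nat.le_of_mul_le_mul_left h6 hp1
  have h7 : p * B ≤ 8 * n * s := by
    have : p ≤ 2 * (p - 1) := by omega
    calc p * B ≤ 2 * (p - 1) * B := Nat.mul_le_mul_right _ this
      _ = 2 * ((p - 1) * B) := by ring
      _ ≤ 2 * (4 * n * s) := Nat.mul_le_mul_left _ h5
      _ = 8 * n * s := by ring
  have hp0 : (0 : ℝ) < p := by
    have : 0 < p := by omega
    exact_mod_cast this
  rw [div_mul_eq_mul_div, le_div_iff₀ hp0]
  have h8 : ((p * B : ℕ) : ℝ) ≤ ((8 * n * s : ℕ) : ℝ) := by exact_mod_cast h7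
  push_cast at h8
  linarith

end Pool.Agent.U505.MG
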