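import Pool.Agent.U505.MG.Lin
import Pool.Agent.U505.MG.DetEq

set_option autoImplicit false

/-!
# Record gaps at all the proper minors of the matrices with given determinant modulo a prime
-/

namespace Pool.Agent.U505.MG

open Finset Matrix Filter
open Pool.Agent.W147.PS (ff)

/-- The positions of the minors of the sizes `1, …, n - 1`. -/
abbrev Ix (n : ℕ) : Type := (k : Fin (n - 1)) × ((Fin (k + 1) ↪o Fin n) × (Fin (k + 1) ↪o Fin n))

noncomputable instance (n : ℕ) : Fintype (Ix n) := Fintype.ofFinite _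

/-- The minor at the position `w`. -/
def mnr {p n : ℕ} (g : Matrix (Fin n) (Fin n) (ZMod p)) (w : Ix n) : ZMod p :=
  (g.submatrix w.2.1 w.2.2).det

theorem minEq (n E : ℕ) (hn : 2 ≤ n) (δ : ℝ) (hδ : 0 < δ) (hδ1 : δ ≤ 1) :
    ∃ κ : ℝ, 0 < κ ∧ ∃ p₀ : ℕ, ∀ p : ℕ, p.Prime → p₀ ≤ p → ∀ d : ZMod p, d ≠ 0 →
    ∀ (M : Ix n → ℤ) (L : Ix n → ℕ), (∀ w, (p : ℝ) ^ δ ≤ L w ∧ L w ≤ p) →
      (p : ℝ) ^ ((Nat.card (Ix n) : ℝ) - 1 + δ) ≤ ∏ w, (L w : ℝ) →
      (p : ℝ) ^ ((n : ℝ) ^ 2 - 1 - δ) * ∏ w, ((L w : ℝ) / p) ≤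
        (({g | g.det = d ∧ ∃ z : Ix n → ℤ,
          (∀ w, M w < z w ∧ z w ≤ M w + L w ∧ ((z w : ℤ) : ZMod p) = mnr g w) ∧
          Good E (κ * ff p) ((p : ℝ) ^ δ) z} : Set (Matrix (Fin n) (Fin n) (ZMod p))).ncard : ℝ) := by
  classical
  have : Fintype (Idx n n) := Fintype.ofFinite _
  obtain ⟨κ, hκ, p₁, h⟩ := engine (Ix n) E (δ / 2) (by positivity) (by linarith)
  obtain ⟨p₂, hp₂⟩ := ev_sav' (2 * n + 1)
  have hev : ∀ᶠ x : ℝ in atTop, 8 * (n : ℝ) ≤ x ^ (δ / 2) :=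
    (tendsto_rpow_atTop (by positivity)).eventually_ge_atTop _
  obtain ⟨x₀, hx₀⟩ := eventually_atTop.mp hev
  obtain ⟨p₃, hp₃⟩ := exists_nat_ge x₀
  refine ⟨κ, hκ, max p₁ (max p₂ (max p₃ (2 * n + 1))), ?_⟩
  intro p hp hpp d hd M L hL hV
  have : Fact p.Prime := ⟨hp⟩
  have hp1 : (1 : ℝ) < p := by exact_mod_cast hp.one_lt
  have hp0 : (0 : ℝ) < p := by linarith
  have hpn : 2 * n + 1 ≤ p := le_trans (by simp) hpp
  have hpp3 : p₃ ≤ p := le_trans (by simp) hpp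
  have g2 : 8 * (n : ℝ) ≤ (p : ℝ) ^ (δ / 2) := hx₀ p (hp₃.trans (by exact_mod_cast hpp3))
  have hsav := hp₂ p (le_trans (by simp) hpp)
  have hmo : ∀ x y : ℝ, x ≤ y → (p : ℝ) ^ x ≤ (p : ℝ) ^ y := fun x y h =>
    Real.rpow_le_rpow_of_exponent_le hp1.le h
  have hn2 : (2 : ℝ) ≤ n := by exact_mod_cast hn
  set S : Finset (Mt p n) := univ.filter (fun g : Mt p n => g.det = d) with hS
  have h1 := h p ((le_max_left _ _).trans hpp) (1 - δ / 2) (Mt p n) S
    (fun g w => mnr g w) (det_nonempty (by omega) _) (fun α hα => by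
      set H : Idx n n → ZMod p := fun w => if hw : (w.1 : ℕ) < n - 1 then
        α ⟨⟨w.1, hw⟩, w.2⟩ else 0 with hH
      have hH0 : H ≠ 0 := by
        intro h0
        apply hα
        funext w
        have := congrFun h0 ⟨⟨w.1, by have := w.1.2; omega⟩, w.2⟩
        simp only [hH] at this
        rw [dif_pos w.1.2] at this
        exact this
      have hHn : ∀ w : Idx n n, (w.1 : ℕ) + 1 = n → H w = 0 := by
        intro w hw
        simp only [hH]
        rw [dif_neg (by omega)]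
      have h2 := sum_detL H hH0 hHn hsav hpn d hd
      have h3 : ∀ g : Mt p n, ∑ w : Ix n, α w * mnr g w = PH H g := by
        intro g
        unfold PH
        have h4 : ∑ w : Idx n n, H w * minor w.2.1 w.2.2 g =
            ∑ w ∈ univ.filter (fun w : Idx n n => (w.1 : ℕ) < n - 1),
              H w * minor w.2.1 w.2.2 g := by
          rw [sum_filter]
          refine sum_congr rfl fun w _ => ?_
          split_ifs with hw
          · rfl
          · simp only [hH]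
            rw [dif_neg hw, zero_mul]
        rw [h4]
        refine sum_bij (fun (w : Ix n) _ =>
          (⟨⟨w.1, by have := w.1.2; omega⟩, w.2⟩ : Idx n n)) ?_ ?_ ?_ ?_
        · intro w _
          exact mem_filter.2 ⟨mem_univ _, w.1.2⟩
        · rintro ⟨⟨k, hk⟩, ab⟩ _ ⟨⟨k', hk'⟩, ab'⟩ _ h5
          simp only [Sigma.mk.injEq, Fin.mk.injEq] at h5
          obtain ⟨rfl, h6⟩ := h5
          rw [eq_of_heq h6]
        · intro w hw
          exact ⟨⟨⟨w.1, (mem_filter.1 hw).2⟩, w.2⟩, mem_univ _, rfl⟩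
        · intro w _
          simp only [hH]
          rw [dif_pos w.1.2]
          rfl
      simp only [h3]
      refine h2.trans ?_
      rw [mul_comm]
      refine mul_le_mul_of_nonneg_left ?_ (Nat.cast_nonneg _)
      rw [neg_sub, Real.rpow_sub hp0, Real.rpow_one]
      gcongr) M L
    (fun x => ⟨(hmo _ _ (by linarith)).trans (hL x).1, (hL x).2⟩) (by
      refine le_trans (le_of_eq ?_) hV
      rw [Nat.card_eq_fintype_card]
      congr 1
      ring)
  have h4 : (p : ℝ) ^ ((n : ℝ) ^ 2 - 1 - δ) * ∏ w, ((L w : ℝ) / p) ≤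
      (p : ℝ) ^ (-(δ / 2)) * ((S.card : ℝ) * ∏ w, ((L w : ℝ) / p)) := by
    have h5 := card_SL_ge (by omega : 1 ≤ n) hsav _ hd
    have hprod0 : 0 ≤ ∏ w : Ix n, ((L w : ℝ) / p) := prod_nonneg fun w _ => by positivity
    rw [← mul_assoc]
    refine mul_le_mul_of_nonneg_right ?_ hprod0
    have h6 : (p : ℝ) ^ ((n : ℝ) ^ 2 - 1 - δ) =
        (p : ℝ) ^ (n * n) / p / ((p : ℝ) ^ (δ / 2) * (p : ℝ) ^ (δ / 2)) := by
      have e : (p : ℝ) ^ ((n : ℝ) ^ 2) = (p : ℝ) ^ (n * n) := by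
        have e' : ((n * n : ℕ) : ℝ) = (n : ℝ) ^ 2 := by push_cast; ring
        rw [← Real.rpow_natCast (p : ℝ) (n * n), e']
      rw [← Real.rpow_add hp0, Real.rpow_sub hp0, Real.rpow_sub hp0, Real.rpow_one, e,
        add_halves]
    have h9 : (p : ℝ) ^ (-(δ / 2)) = ((p : ℝ) ^ (δ / 2))⁻¹ := Real.rpow_neg hp0.le _
    set b : ℝ := (p : ℝ) ^ (δ / 2)
    have hb0 : 2 ≤ b := by linarith
    have hb1 : 0 < b := by linarith
    rw [h6, h9]
    set s : ℝ := (S.card : ℝ)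
    have h7 : (p : ℝ) ^ (n * n) / p ≤ 2 * s := by
      rw [div_le_iff₀ hp0]
      linarith
    have hs0 : 0 ≤ s := Nat.cast_nonneg _
    calc (p : ℝ) ^ (n * n) / p / (b * b) ≤ (2 * s) / (b * b) := by gcongr
      _ ≤ (b * s) / (b * b) := by gcongr
      _ = b⁻¹ * s := by field_simp
  refine h4.trans (h1.trans ?_)
  norm_cast
  rw [← Set.ncard_coe_finset]
  apply Set.ncard_le_ncard _ (Set.toFinite _)
  intro g hg
  rw [mem_coe, mem_filter, hS, mem_filter] at hg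
  obtain ⟨⟨_, hdet⟩, z, hz1, hz2⟩ := hg
  refine ⟨hdet, z, hz1, ?_⟩
  intro e he hg m hm
  obtain ⟨l, hl1, hl2, hl3⟩ := hz2 e he hg m hm
  exact ⟨l, hl1, hl2.trans (hmo _ _ (by linarith)), hl3⟩

end Pool.Agent.U505.MG
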