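import Pool.Agent.U505.MG.Weyl

set_option autoImplicit false

/-!
# Values of polynomials in several variables and minors of matrices: exponential sums
-/

namespace Pool.Agent.U505.MG

open Finset

variable {p : ℕ} [Fact p.Prime]

lemma PolyC_prod {V : Type} [AddCommGroup V] {ι : Type} (s : Finset ι) (m : ι → ℕ)
    (f : ι → V → ZMod p) (hf : ∀ i ∈ s, PolyC (m i) (f i)) :
    PolyC (∑ i ∈ s, m i + 1) (fun x => ∏ i ∈ s, f i x) := by
  classical
  induction s using Finset.induction_on with
  | empty => simpa using PolyC_const (1 : ZMod p)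
  | insert i s hi ih =>
    have h1 := PolyC_mul (∑ i ∈ insert i s, m i + 1) (m i) (∑ i ∈ s, m i + 1)
      (by rw [sum_insert hi]; ring) _ _ (hf i (mem_insert_self _ _))
      (ih fun j hj => hf j (mem_insert_of_mem hj))
    simpa [prod_insert hi] using h1

/-- The class of a polynomial of degree at most `d` in `n` variables. -/
lemma PolyC_mv {n d : ℕ} (F : MvPolynomial (Fin n) (ZMod p)) (hd : F.totalDegree ≤ d) :
    PolyC (2 * d + n + 1) (fun x : Fin n → ZMod p => MvPolynomial.eval x F) := by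
  have h1 : (fun x : Fin n → ZMod p => MvPolynomial.eval x F) =
      fun x => ∑ s ∈ F.support, F.coeff s * ∏ i, x i ^ s i := by
    funext x; exact MvPolynomial.eval_eq' x F
  rw [h1]
  refine PolyC_sum _ _ _ fun s hs => PolyC_smul _ _ _ ?_
  have h2 := PolyC_prod (V := Fin n → ZMod p) univ (fun i => 2 * s i + 1)
    (fun i x => x i ^ s i) (fun i _ => PolyC_pow 2 (fun x : Fin n → ZMod p => x i)
      (PolyC_lin (LinearMap.proj i : (Fin n → ZMod p) →ₗ[ZMod p] ZMod p)) (s i))
  refine PolyC_le ?_ _ h2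
  have h3 : ∑ i, s i ≤ d := by
    refine le_trans ?_ hd
    have := MvPolynomial.le_totalDegree hs
    rwa [Finsupp.sum_fintype _ _ (fun _ => rfl)] at this
  rw [sum_add_distrib, ← mul_sum]
  simp only [sum_const, card_univ, Fintype.card_fin, smul_eq_mul, mul_one]
  omega

/-- A polynomial of degree at most `d < p` whose values are all equal is a constant. -/
lemma exists_ne {n d : ℕ} (F : MvPolynomial (Fin n) (ZMod p)) (hd : F.totalDegree ≤ d) (hdp : d < p)
    (hF : ∀ c, F ≠ MvPolynomial.C c) :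
    ∃ x y, MvPolynomial.eval x F ≠ MvPolynomial.eval y F := by
  by_contra hcon
  push Not at hcon
  apply hF (MvPolynomial.eval 0 F)
  rw [← sub_eq_zero]
  refine MvPolynomial.eq_zero_of_eval_zero_at_prod_finset _ (fun _ => univ) ?_ ?_
  · intro i
    rw [card_univ, ZMod.card]
    refine lt_of_le_of_lt (MvPolynomial.degreeOf_le_totalDegree _ _) (lt_of_le_of_lt ?_ hdp)
    refine (MvPolynomial.totalDegree_sub _ _).trans ?_
    rw [MvPolynomial.totalDegree_C]
    simpa using hd
  · intro x _
    rw [map_sub, MvPolynomial.eval_C, hcon x 0, sub_self]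

/-! ## Minors -/

/-- The minor of `g` with rows `a` and columns `b`. -/
def minor {m n k : ℕ} (a : Fin k → Fin m) (b : Fin k → Fin n)
    (g : Matrix (Fin m) (Fin n) (ZMod p)) : ZMod p := (g.submatrix a b).det

lemma PolyC_minor {m n k : ℕ} (a : Fin k → Fin m) (b : Fin k → Fin n) :
    PolyC (2 * k + 1) (fun g : Matrix (Fin m) (Fin n) (ZMod p) => minor a b g) := by
  have h1 : (fun g : Matrix (Fin m) (Fin n) (ZMod p) => minor a b g) =
      fun g => ∑ σ : Equiv.Perm (Fin k), ((Equiv.Perm.sign σ : ℤ) : ZMod p) *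
        ∏ i, g (a (σ i)) (b i) := by
    funext g
    unfold minor
    rw [Matrix.det_apply']
    rfl
  rw [h1]
  refine PolyC_sum _ _ _ fun σ _ => PolyC_smul _ _ _ ?_
  have h2 := PolyC_prod (V := Matrix (Fin m) (Fin n) (ZMod p)) univ (fun _ : Fin k => 2)
    (fun i g => g (a (σ i)) (b i))
    (fun i _ => PolyC_lin ((LinearMap.proj (b i) : (Fin n → ZMod p) →ₗ[ZMod p] ZMod p) ∘ₗ
      (LinearMap.proj (a (σ i)) : (Fin m → Fin n → ZMod p) →ₗ[ZMod p] (Fin n → ZMod p))))
  refine PolyC_le ?_ _ h2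
  simp [mul_comm]

/-- The matrix with ones at the places `(a t, b t)`. -/
def pm {m n k : ℕ} (a : Fin k → Fin m) (b : Fin k → Fin n) : Matrix (Fin m) (Fin n) (ZMod p) :=
  fun i j => if ∃ t, a t = i ∧ b t = j then 1 else 0

lemma minor_pm_self {m n k : ℕ} (a : Fin k ↪o Fin m) (b : Fin k ↪o Fin n) :
    minor (p := p) a b (pm a b) = 1 := by
  unfold minor
  have : (pm (p := p) a b).submatrix a b = 1 := by
    ext i j
    simp only [Matrix.submatrix_apply, pm, Matrix.one_apply]
    congr 1
    apply propext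
    constructor
    · rintro ⟨t, h1, h2⟩
      rw [← a.injective h1, ← b.injective h2]
    · rintro rfl
      exact ⟨i, rfl, rfl⟩
  rw [this, Matrix.det_one]

lemma minor_pm_row {m n k l : ℕ} (a : Fin k ↪o Fin m) (b : Fin k ↪o Fin n) (a' : Fin l ↪o Fin m)
    (b' : Fin l ↪o Fin n) (s : Fin l) (hs : ∀ t, a t ≠ a' s) :
    minor (p := p) a' b' (pm a b) = 0 := by
  unfold minor
  refine Matrix.det_eq_zero_of_row_eq_zero s fun j => ?_
  simp only [Matrix.submatrix_apply, pm]
  rw [if_neg]
  rintro ⟨t, h1, _⟩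
  exact hs t h1

lemma minor_pm_col {m n k l : ℕ} (a : Fin k ↪o Fin m) (b : Fin k ↪o Fin n) (a' : Fin l ↪o Fin m)
    (b' : Fin l ↪o Fin n) (s : Fin l) (hs : ∀ t, b t ≠ b' s) :
    minor (p := p) a' b' (pm a b) = 0 := by
  unfold minor
  refine Matrix.det_eq_zero_of_column_eq_zero s fun j => ?_
  simp only [Matrix.submatrix_apply, pm]
  rw [if_neg]
  rintro ⟨t, _, h1⟩
  exact hs t h1

lemma emb_eq {m k l : ℕ} (hkl : k ≤ l) (a : Fin k ↪o Fin m) (a' : Fin l ↪o Fin m)
    (h : ∀ s, ∃ t, a t = a' s) : ∃ e : k = l, ∀ s : Fin l, a (Fin.cast e.symm s) = a' s := by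
  have h1 : Set.range a' ⊆ Set.range a := by
    rintro _ ⟨s, rfl⟩
    exact h s
  have h2 : l ≤ k := by
    have h3 : (Finset.univ.map a'.toEmbedding) ⊆ Finset.univ.map a.toEmbedding := by
      intro x hx
      rw [mem_map] at hx ⊢
      obtain ⟨s, _, rfl⟩ := hx
      obtain ⟨t, ht⟩ := h s
      exact ⟨t, mem_univ _, ht⟩
    have := card_le_card h3
    simpa using this
  obtain rfl : k = l := le_antisymm hkl h2
  refine ⟨rfl, ?_⟩
  have h4 : Set.range a' = Set.range a := by
    have h3 : (Finset.univ.map a'.toEmbedding) = Finset.univ.map a.toEmbedding := by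
      apply eq_of_subset_of_card_le
      · intro x hx
        rw [mem_map] at hx ⊢
        obtain ⟨s, _, rfl⟩ := hx
        obtain ⟨t, ht⟩ := h s
        exact ⟨t, mem_univ _, ht⟩
      · simp
    ext x
    have := congrArg (fun S : Finset (Fin m) => x ∈ S) h3
    simpa using this
  have h5 : a' = a := OrderEmbedding.range_inj.1 h4
  intro s
  rw [h5]
  rfl

/-- The minors with rows and columns in increasing order: sizes from `1` to `m`. -/
abbrev Idx (m n : ℕ) : Type := (k : Fin m) × ((Fin (k + 1) ↪o Fin m) × (Fin (k + 1) ↪o Fin n))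

lemma nonconst {m n : ℕ} [Fintype (Idx m n)] (H : Idx m n → ZMod p) (hH : H ≠ 0) :
    ∃ x y : Matrix (Fin m) (Fin n) (ZMod p),
      ∑ w : Idx m n, H w * minor w.2.1 w.2.2 x ≠ ∑ w : Idx m n, H w * minor w.2.1 w.2.2 y := by
  classical
  have h1 : ∃ k : ℕ, ∃ w : Idx m n, (w.1 : ℕ) = k ∧ H w ≠ 0 := by
    by_contra hcon
    push Not at hcon
    exact hH (funext fun w => hcon _ w rfl)
  set k := Nat.find h1 with hk
  obtain ⟨w₀, hw₀, hne⟩ := Nat.find_spec h1
  rw [← hk] at hw₀
  refine ⟨pm w₀.2.1 w₀.2.2, 0, ?_⟩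
  have e0 : ∑ w : Idx m n, H w * minor w.2.1 w.2.2 (0 : Matrix (Fin m) (Fin n) (ZMod p)) = 0 := by
    refine sum_eq_zero fun w _ => ?_
    have : minor (p := p) w.2.1 w.2.2 0 = 0 := by
      unfold minor
      exact Matrix.det_eq_zero_of_row_eq_zero 0 fun j => rfl
    rw [this, mul_zero]
  rw [e0, sum_eq_single w₀, minor_pm_self, mul_one]
  · exact hne
  · intro w _ hw
    by_cases hHw : H w = 0
    · rw [hHw, zero_mul]
    have h2 : (w₀.1 : ℕ) ≤ w.1 := by
      rw [hw₀, hk]
      exact Nat.find_min' h1 ⟨w, rfl, hHw⟩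
    have h3 : minor (p := p) w.2.1 w.2.2 (pm w₀.2.1 w₀.2.2) = 0 := by
      by_cases hr : ∀ s, ∃ t, w₀.2.1 t = w.2.1 s
      · by_cases hc : ∀ s, ∃ t, w₀.2.2 t = w.2.2 s
        · exfalso
          apply hw
          obtain ⟨e, he⟩ := emb_eq (by omega) _ _ hr
          obtain ⟨e', he'⟩ := emb_eq (by omega) _ _ hc
          obtain ⟨k₀, a₀, b₀⟩ := w₀
          obtain ⟨k₁, a₁, b₁⟩ := w
          have hkk : k₀ = k₁ := by
            simp only at e
            ext; omega
          subst hkk
          simp only at he he'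
          have ha : a₁ = a₀ := by
            ext s
            rw [← he s]
            rfl
          have hb : b₁ = b₀ := by
            ext s
            rw [← he' s]
            rfl
          rw [ha, hb]
        · push Not at hc
          obtain ⟨s, hs⟩ := hc
          exact minor_pm_col _ _ _ _ s hs
      · push Not at hr
        obtain ⟨s, hs⟩ := hr
        exact minor_pm_row _ _ _ _ s hs
    rw [h3, mul_zero]
  · intro h
    exact absurd (mem_univ _) h

end Pool.Agent.U505.MG
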