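import Mathlib

set_option autoImplicit false

/-!
# Weyl's bound for polynomial functions on a finite vector space over `ZMod p`
-/

namespace Pool.Agent.U505.MG

open Finset

variable {p : ℕ} [Fact p.Prime] {V : Type} [AddCommGroup V] [Module (ZMod p) V]

/-- The difference operator. -/
def Dl (h : V) (g : V → ZMod p) : V → ZMod p := fun x => g (x + h) - g x

/-- All `m`-fold differences vanish. -/
def PolyC : ℕ → (V → ZMod p) → Prop
  | 0, g => ∀ x, g x = 0
  | (m + 1), g => ∀ h, PolyC m (Dl h g)

omit [Module (ZMod p) V] in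
lemma PolyC_zero (m : ℕ) : PolyC m (fun _ : V => (0 : ZMod p)) := by
  induction m with
  | zero => intro x; rfl
  | succ m ih =>
    intro h
    have : Dl h (fun _ : V => (0 : ZMod p)) = fun _ => 0 := by
      funext x; simp [Dl]
    rw [this]; exact ih

omit [Module (ZMod p) V] in
lemma PolyC_add (m : ℕ) : ∀ f g : V → ZMod p, PolyC m f → PolyC m g →
    PolyC m (fun x => f x + g x) := by
  induction m with
  | zero => intro f g hf hg x; simp only [PolyC] at hf hg; simp [hf x, hg x]
  | succ m ih =>
    intro f g hf hg h
    have : Dl h (fun x => f x + g x) = fun x => Dl h f x + Dl h g x := by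
      funext x; simp only [Dl]; ring
    rw [this]; exact ih _ _ (hf h) (hg h)

omit [Module (ZMod p) V] in
lemma PolyC_smul (m : ℕ) (c : ZMod p) : ∀ f : V → ZMod p, PolyC m f →
    PolyC m (fun x => c * f x) := by
  induction m with
  | zero => intro f hf x; simp only [PolyC] at hf; simp [hf x]
  | succ m ih =>
    intro f hf h
    have : Dl h (fun x => c * f x) = fun x => c * Dl h f x := by
      funext x; simp only [Dl]; ring
    rw [this]; exact ih _ (hf h)

omit [Module (ZMod p) V] in
lemma PolyC_sum {ι : Type} (s : Finset ι) (m : ℕ) (f : ι → V → ZMod p)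
    (hf : ∀ i ∈ s, PolyC m (f i)) : PolyC m (fun x => ∑ i ∈ s, f i x) := by
  classical
  induction s using Finset.induction_on with
  | empty => simpa using PolyC_zero m
  | insert i s hi ih =>
    have h1 := PolyC_add m _ _ (hf i (mem_insert_self _ _))
      (ih fun j hj => hf j (mem_insert_of_mem hj))
    simpa [sum_insert hi] using h1

omit [Module (ZMod p) V] in
lemma PolyC_trans (m : ℕ) (a : V) : ∀ f : V → ZMod p, PolyC m f →
    PolyC m (fun x => f (x + a)) := by
  induction m with
  | zero => intro f hf x; exact hf _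
  | succ m ih =>
    intro f hf h
    have : Dl h (fun x => f (x + a)) = fun x => Dl h f (x + a) := by
      funext x; simp only [Dl]; congr 2; abel
    rw [this]; exact ih _ (hf h)

omit [Module (ZMod p) V] in
lemma PolyC_succ (m : ℕ) : ∀ f : V → ZMod p, PolyC m f → PolyC (m + 1) f := by
  induction m with
  | zero =>
    intro f hf h x
    simp only [PolyC] at hf
    simp [Dl, hf]
  | succ m ih =>
    intro f hf h
    exact ih _ (hf h)

omit [Module (ZMod p) V] in
lemma PolyC_le {m k : ℕ} (hmk : m ≤ k) (f : V → ZMod p) (hf : PolyC m f) : PolyC k f := by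
  induction k, hmk using Nat.le_induction with
  | base => exact hf
  | succ k _ ih => exact PolyC_succ k _ ih

omit [Module (ZMod p) V] in
lemma PolyC_mul (n : ℕ) : ∀ (a b : ℕ), a + b = n → ∀ f g : V → ZMod p, PolyC a f → PolyC b g →
    PolyC n (fun x => f x * g x) := by
  induction n with
  | zero =>
    intro a b hab f g hf hg
    obtain rfl : a = 0 := by omega
    simp only [PolyC] at hf
    intro x
    simp [hf x]
  | succ n ih =>
    intro a b hab f g hf hg
    rcases Nat.eq_zero_or_pos a with ha | ha
    · subst ha
      simp only [PolyC] at hf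
      have : (fun x => f x * g x) = fun _ => 0 := by funext x; simp [hf x]
      rw [this]
      exact PolyC_zero _
    rcases Nat.eq_zero_or_pos b with hb | hb
    · subst hb
      simp only [PolyC] at hg
      have : (fun x => f x * g x) = fun _ => 0 := by funext x; simp [hg x]
      rw [this]
      exact PolyC_zero _
    obtain ⟨a, rfl⟩ := Nat.exists_eq_add_of_le' ha
    obtain ⟨b, rfl⟩ := Nat.exists_eq_add_of_le' hb
    intro h
    have : Dl h (fun x => f x * g x) = fun x => Dl h f x * g (x + h) + f x * Dl h g x := by
      funext x; simp only [Dl]; ring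
    rw [this]
    exact PolyC_add _ _ _ (ih a (b + 1) (by omega) _ _ (hf h) (PolyC_trans _ _ _ hg))
      (ih (a + 1) b (by omega) _ _ hf (hg h))

omit [Module (ZMod p) V] in
lemma PolyC_const (c : ZMod p) : PolyC 1 (fun _ : V => c) := by
  intro h x
  simp [Dl]

omit [Module (ZMod p) V] in
lemma PolyC_pow (m : ℕ) (f : V → ZMod p) (hf : PolyC m f) (k : ℕ) :
    PolyC (m * k + 1) (fun x => f x ^ k) := by
  induction k with
  | zero => simpa using PolyC_const (1 : ZMod p)
  | succ k ih =>
    have h1 := PolyC_mul (m * (k + 1) + 1) (m * k + 1) m (by ring) _ _ ih hf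
    simpa [pow_succ] using h1

/-- A linear form. -/
lemma PolyC_lin (l : V →ₗ[ZMod p] ZMod p) : PolyC 2 (fun x => l x) := by
  intro h k x
  simp [Dl]

/-! ## The exponential sum -/

/-- The exponential sum. -/
noncomputable def W [Fintype V] (g : V → ZMod p) : ℂ := ∑ x, ZMod.stdAddChar (g x)

lemma norm_stdAddChar (x : ZMod p) : ‖(ZMod.stdAddChar x : ℂ)‖ = 1 := by
  rw [ZMod.stdAddChar_apply]; exact Circle.norm_coe _

omit [AddCommGroup V] [Module (ZMod p) V] in
lemma norm_W_le [Fintype V] (g : V → ZMod p) : ‖W g‖ ≤ Fintype.card V := by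
  unfold W
  refine (norm_sum_le _ _).trans ?_
  simp [norm_stdAddChar]

omit [Module (ZMod p) V] in
lemma W_sq [Fintype V] (g : V → ZMod p) :
    (W g) * (starRingEnd ℂ) (W g) = ∑ h : V, W (Dl h g) := by
  unfold W
  rw [map_sum, Finset.sum_mul_sum]
  rw [Finset.sum_comm]
  have h1 : ∀ x : V, ∑ y : V, (ZMod.stdAddChar (g y) : ℂ) * (starRingEnd ℂ) (ZMod.stdAddChar (g x))
      = ∑ h : V, (ZMod.stdAddChar (Dl h g x) : ℂ) := by
    intro x
    rw [← Equiv.sum_comp (Equiv.addLeft x)]
    refine Finset.sum_congr rfl fun h _ => ?_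
    rw [← AddChar.map_neg_eq_conj, ← AddChar.map_add_eq_mul]
    simp only [Dl, Equiv.coe_addLeft]
    congr 1
    exact (sub_eq_add_neg _ _).symm
  rw [Finset.sum_congr rfl fun x _ => h1 x]
  rw [Finset.sum_comm]

omit [Module (ZMod p) V] in
lemma W_eq_zero_of_affine [Fintype V] (g : V → ZMod p) (h : V) (c : ZMod p) (hc : c ≠ 0)
    (hg : ∀ x, g (x + h) = g x + c) : W g = 0 := by
  have h1 : W g = ZMod.stdAddChar c * W g := by
    conv_lhs => unfold W
    rw [← Equiv.sum_comp (Equiv.addRight h)]
    simp only [Equiv.coe_addRight, hg, AddChar.map_add_eq_mul]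
    rw [← Finset.sum_mul]
    unfold W; ring
  have h2 : (ZMod.stdAddChar c : ℂ) ≠ 1 := by
    intro h
    rw [← (ZMod.stdAddChar (N := p)).map_zero_eq_one, ZMod.injective_stdAddChar.eq_iff] at h
    exact hc h
  have h3 : (1 - (ZMod.stdAddChar c : ℂ)) * W g = 0 := by
    linear_combination h1
  rcases mul_eq_zero.mp h3 with h | h
  · exact absurd (sub_eq_zero.mp h).symm h2
  · exact h

/-- The saving factor `p ^ (-1/2^m)`. -/
noncomputable def sav (p m : ℕ) : ℝ := (p : ℝ) ^ (-(1 / 2 ^ m : ℝ))

lemma sav_sq (p m : ℕ) (hp : 0 < p) : (sav p (m+1)) ^ 2 = sav p m := by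
  unfold sav
  rw [← Real.rpow_natCast, ← Real.rpow_mul (by positivity)]
  congr 1
  rw [pow_succ]; push_cast; field_simp

lemma sav_pos (p m : ℕ) (hp : 0 < p) : 0 < sav p m := by
  unfold sav; positivity

lemma inv_le_sav (p m : ℕ) (hp : 0 < p) : 1 / (p : ℝ) ≤ sav p m := by
  unfold sav
  have h1 : (1 : ℝ) ≤ p := by exact_mod_cast hp
  have : 1 / (p : ℝ) = (p : ℝ) ^ (-1 : ℝ) := by
    rw [Real.rpow_neg_one]; simp
  rw [this]
  apply Real.rpow_le_rpow_of_exponent_le h1
  have : (1 / 2 ^ m : ℝ) ≤ 1 := by
    rw [div_le_one (by positivity)]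
    exact one_le_pow₀ (by norm_num)
  linarith

/-- The periods of `g`. -/
def per (g : V → ZMod p) : Submodule (ZMod p) V where
  carrier := {h | ∀ x, g (x + h) = g x}
  add_mem' := by
    intro a b ha hb x
    rw [← add_assoc, hb, ha]
  zero_mem' := by intro x; simp
  smul_mem' := by
    intro c h hh
    have key : ∀ k : ℕ, ∀ x, g (x + k • h) = g x := by
      intro k
      induction k with
      | zero => intro x; simp
      | succ k ih =>
        intro x
        rw [add_smul, one_smul, ← add_assoc, hh, ih]
    intro x
    have h1 : c • h = c.val • h := by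
      rw [← Nat.cast_smul_eq_nsmul (ZMod p), ZMod.natCast_zmod_val]
    rw [h1]
    exact key _ x

lemma card_per_le [Fintype V] (g : V → ZMod p) (hg : ∃ x y, g x ≠ g y) :
    (p : ℝ) * Nat.card (per g) ≤ Fintype.card V := by
  classical
  have hne : per g ≠ ⊤ := by
    rintro h
    obtain ⟨x, y, hxy⟩ := hg
    have h1 : x - y ∈ per g := h ▸ Submodule.mem_top
    have h2 := h1 y
    rw [add_sub_cancel] at h2
    exact hxy h2
  have h1 : Module.finrank (ZMod p) (per g) < Module.finrank (ZMod p) V :=
    Submodule.finrank_lt hne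
  have h2 : Nat.card (per g) = p ^ Module.finrank (ZMod p) (per g) := by
    have := Module.natCard_eq_pow_finrank (K := ZMod p) (V := per g)
    rwa [Nat.card_zmod] at this
  have h3 : Fintype.card V = p ^ Module.finrank (ZMod p) V := by
    have := Module.natCard_eq_pow_finrank (K := ZMod p) (V := V)
    rwa [Nat.card_zmod, Nat.card_eq_fintype_card] at this
  rw [h2, h3]
  have h4 : p * p ^ Module.finrank (ZMod p) (per g) ≤ p ^ Module.finrank (ZMod p) V := by
    rw [← pow_succ']
    exact Nat.pow_le_pow_right (Fact.out : p.Prime).pos h1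
  exact_mod_cast h4

/-- **Weyl's bound** on a vector space over `ZMod p`. -/
theorem weyl [Fintype V] (m : ℕ) : ∀ g : V → ZMod p, PolyC m g → (∃ x y, g x ≠ g y) →
    ‖W g‖ ≤ 2 * (Fintype.card V * sav p m) := by
  classical
  have hp : 0 < p := (Fact.out : p.Prime).pos
  induction m with
  | zero =>
    rintro g hg ⟨x, y, hxy⟩
    exact absurd (by rw [hg x, hg y]) hxy
  | succ m ih =>
    intro g hg hn
    have hV0 : (0 : ℝ) ≤ Fintype.card V := Nat.cast_nonneg _
    have hs := sav_pos p (m + 1) hp
    by_cases hc : ∃ (h : V) (c : ZMod p), c ≠ 0 ∧ ∀ x, Dl h g x = c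
    · obtain ⟨h, c, hc0, hc⟩ := hc
      have h0 : W g = 0 := by
        apply W_eq_zero_of_affine g h c hc0
        intro x
        have := hc x
        simp only [Dl] at this ⊢
        linear_combination this
      rw [h0, norm_zero]
      positivity
    · push Not at hc
      have h1 : ‖W g‖ ^ 2 ≤ Fintype.card V * Nat.card (per g) +
          Fintype.card V * (2 * (Fintype.card V * sav p m)) := by
        have e1 : (‖W g‖ ^ 2 : ℝ) = ‖(W g) * (starRingEnd ℂ) (W g)‖ := by
          rw [norm_mul, RCLike.norm_conj]; ring
        rw [e1, W_sq]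
        refine (norm_sum_le _ _).trans ?_
        have e2 : ∀ h : V, ‖W (Dl h g)‖ ≤ (if h ∈ per g then (Fintype.card V : ℝ) else 0) +
            2 * (Fintype.card V * sav p m) := by
          intro h
          have hs' := sav_pos p m hp
          by_cases hh : h ∈ per g
          · rw [if_pos hh]
            have := norm_W_le (Dl h g)
            have h5 : 0 ≤ 2 * ((Fintype.card V : ℝ) * sav p m) := by positivity
            linarith
          · rw [if_neg hh, zero_add]
            apply ih _ (hg h)
            by_contra hcon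
            push Not at hcon
            apply hh
            intro x
            by_contra hx
            have h6 := hc h (Dl h g 0) (by
              intro h0
              apply hx
              have := hcon x 0
              rw [h0] at this
              simpa [Dl, sub_eq_zero] using this)
            obtain ⟨y, hy⟩ := h6
            exact hy (hcon y 0)
        refine (sum_le_sum fun h _ => e2 h).trans ?_
        rw [sum_add_distrib, ← sum_filter, sum_const, sum_const, card_univ, nsmul_eq_mul,
          nsmul_eq_mul]
        have e3 : ((univ.filter fun h : V => h ∈ per g).card : ℝ) = Nat.card (per g) := by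
          rw [Nat.card_eq_fintype_card]
          norm_cast
          rw [Fintype.card_subtype]
        rw [e3]
        exact le_of_eq (by ring)
      have h2 : (Fintype.card V : ℝ) * Nat.card (per g) +
          Fintype.card V * (2 * (Fintype.card V * sav p m)) ≤
          (2 * (Fintype.card V * sav p (m + 1))) ^ 2 := by
        have e1 : (2 * ((Fintype.card V : ℝ) * sav p (m + 1))) ^ 2 =
            4 * (Fintype.card V) ^ 2 * sav p m := by
          rw [← sav_sq p m hp]; ring
        rw [e1]
        have h3 := inv_le_sav p m hp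
        have hpp : (0 : ℝ) < p := by exact_mod_cast hp
        have h4 : (Nat.card (per g) : ℝ) ≤ Fintype.card V * sav p m := by
          have := card_per_le g hn
          calc (Nat.card (per g) : ℝ) = (p * Nat.card (per g)) * (1 / p) := by field_simp
            _ ≤ Fintype.card V * sav p m := by gcongr
        have h5 := sav_pos p m hp
        nlinarith [mul_le_mul_of_nonneg_left h4 hV0, mul_nonneg (mul_nonneg hV0 hV0) h5.le]
      exact abs_le_of_sq_le_sq' (h1.trans h2) (by positivity) |>.2

end Pool.Agent.U505.MG
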